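import Pool.Agent.Q231.GPS.Low

namespace Q231.GPS

open Q231.Smo
open scoped ENNReal

variable {n : ℕ}

theorem sum_nat_ge (s : Finset ℕ) : s.card * (s.card + 1) ≤ 2 * ∑ x ∈ s, (x + 1) := by
  induction s using Finset.induction_on_max with
  | empty => simp
  | insert a s ha ih =>
    have hn : a ∉ s := fun h => lt_irrefl _ (ha a h)
    rw [Finset.card_insert_of_notMem hn, Finset.sum_insert hn]
    have hc : s.card ≤ a := by
      have : s ⊆ Finset.range a := fun x hx => Finset.mem_range.2 (ha x hx)
      have := Finset.card_le_card this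
      simpa using this
    nlinarith

theorem sum_inj_ge {ι : Type*} (s : Finset ι) (f : ι → ℕ) (hf : Set.InjOn f s) :
    s.card * (s.card + 1) ≤ 2 * ∑ i ∈ s, (f i + 1) := by
  classical
  have h := sum_nat_ge (s.image f)
  rw [Finset.card_image_of_injOn hf, Finset.sum_image hf] at h
  exact h

/-- variables which occur but are not expressed -/
def negS (t : Tree n) : Finset (Fin n) :=
  Finset.univ.filter fun i => ¬ Expressed t.leaves i ∧ ¬ NoI t.leaves i

/-- variables which do not occur -/
def noS (t : Tree n) : Finset (Fin n) := Finset.univ.filter fun i => NoI t.leaves i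

theorem card_parts (t : Tree n) : fit (some t) + (negS t).card + (noS t).card = n := by
  classical
  have h1 : fit (some t) = (Finset.univ.filter fun i => Expressed t.leaves i).card := rfl
  have h2 := Finset.card_filter_add_card_filter_not
    (s := (Finset.univ : Finset (Fin n))) (fun i => Expressed t.leaves i)
  have h3 := Finset.card_filter_add_card_filter_not
    (s := (Finset.univ.filter fun i : Fin n => ¬ Expressed t.leaves i)) (fun i => NoI t.leaves i)
  rw [Finset.filter_filter, Finset.filter_filter] at h3
  have h4 : (Finset.univ.filter fun i : Fin n => ¬ Expressed t.leaves i ∧ NoI t.leaves i) = noS t := by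
    ext i
    simp only [noS, Finset.mem_filter, Finset.mem_univ, true_and]
    exact ⟨fun h => h.2, fun h => ⟨not_expressed_noI h, h⟩⟩
  have h5 : (Finset.univ.filter fun i : Fin n => ¬ Expressed t.leaves i ∧ ¬ NoI t.leaves i) =
    negS t := rfl
  rw [h4, h5] at h3
  rw [h1]
  simp only [Finset.card_univ, Fintype.card_fin] at h2
  omega

theorem noS_card (t : Tree n) : n ≤ (noS t).card + t.size := by
  classical
  have h1 := Finset.card_filter_add_card_filter_not
    (s := (Finset.univ : Finset (Fin n))) (fun i => NoI t.leaves i)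
  have h2 : (Finset.univ.filter fun i : Fin n => ¬ NoI t.leaves i) ⊆
      (t.leaves.map Prod.fst).toFinset := by
    intro i hi
    have hi' : ¬ ∀ y ∈ t.leaves, y.1 ≠ i := (Finset.mem_filter.1 hi).2
    push Not at hi'
    obtain ⟨y, hy, hyi⟩ := hi'
    rw [List.mem_toFinset, List.mem_map]
    exact ⟨y, hy, hyi⟩
  have h3 := Finset.card_le_card h2
  have h4 := List.toFinset_card_le (t.leaves.map Prod.fst)
  rw [List.length_map, ← t.size_eq] at h4
  simp only [Finset.card_univ, Fintype.card_fin] at h1
  have h5 : (noS t) = Finset.univ.filter fun i : Fin n => NoI t.leaves i := rfl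
  rw [h5]
  omega

theorem sum_good_ge (t : Tree n) :
    ((negS t).card : ℝ) ^ 2 / 2 + 2 * t.nodes * (noS t).card ≤ ∑ i, (good t i : ℝ) := by
  classical
  have hdisj : Disjoint (negS t) (noS t) := by
    rw [Finset.disjoint_left]
    intro i hi hi2
    simp only [negS, noS, Finset.mem_filter, Finset.mem_univ, true_and] at hi hi2
    exact hi.2 hi2
  have h1 : ∑ i ∈ negS t ∪ noS t, (good t i : ℝ) ≤ ∑ i, (good t i : ℝ) :=
    Finset.sum_le_sum_of_subset_of_nonneg (Finset.subset_univ _) fun _ _ _ => by positivity
  rw [Finset.sum_union hdisj] at h1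
  have h2 : ∑ i ∈ noS t, (good t i : ℝ) = 2 * t.nodes * (noS t).card := by
    have : ∀ i ∈ noS t, (good t i : ℝ) = 2 * t.nodes := by
      intro i hi
      simp only [noS, Finset.mem_filter, Finset.mem_univ, true_and] at hi
      rw [good, if_neg (not_expressed_noI hi), if_pos hi]
      push_cast; rfl
    rw [Finset.sum_congr rfl this, Finset.sum_const, nsmul_eq_mul]
    ring
  have h3 : ((negS t).card : ℝ) ^ 2 / 2 ≤ ∑ i ∈ negS t, (good t i : ℝ) := by
    have h4 := sum_inj_ge (negS t) (fun i => fi t.leaves i) (by
      intro i hi j hj hij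
      simp only [negS, Finset.coe_filter, Finset.mem_univ, true_and, Set.mem_ofPred_eq] at hi hj
      exact fi_inj hi.2 hj.2 hij)
    have h5 : ∑ i ∈ negS t, (fi t.leaves i + 1) ≤ ∑ i ∈ negS t, good t i := by
      apply Finset.sum_le_sum
      intro i hi
      simp only [negS, Finset.mem_filter, Finset.mem_univ, true_and] at hi
      rw [good, if_neg hi.1, if_neg hi.2]
      rcases cases3 t.leaves i with h2 | h2 | ⟨P, Q, h2⟩
      · exact absurd h2 hi.1
      · exact absurd h2 hi.2
      · have := wt_ge t (fi t.leaves i) (by rw [h2.fi, t.size_eq]; exact h2.lt)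
        omega
    have h6 : (negS t).card * ((negS t).card + 1) ≤ 2 * ∑ i ∈ negS t, good t i := by omega
    have h7 : ((negS t).card : ℝ) * ((negS t).card + 1) ≤ 2 * ∑ i ∈ negS t, (good t i : ℝ) := by
      exact_mod_cast h6
    nlinarith [(Nat.cast_nonneg (negS t).card : (0 : ℝ) ≤ _)]
  linarith

section
variable [NeZero n]

theorem nR : (0 : ℝ) < n := by exact_mod_cast Nat.pos_of_ne_zero (NeZero.ne n)

theorem sum_kap_ge (t : Tree n) :
    ((negS t).card : ℝ) ^ 2 / (48 * n * t.size) + (noS t).card / (6 * n) ≤ ∑ i, kap i t := by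
  have hN0 : (0 : ℝ) < t.nodes := by exact_mod_cast t.nodes_pos
  have hT0 : (0 : ℝ) < t.size := by exact_mod_cast t.size_pos
  have hn0 : (0 : ℝ) < n := nR
  have h1 : (∑ i, (good t i : ℝ)) / (12 * n * t.nodes) ≤ ∑ i, kap i t := by
    unfold kap
    rw [Finset.sum_add_distrib, ← Finset.sum_div]
    have : (0 : ℝ) ≤ ∑ i : Fin n, if Dl t i then 1 / (3 * (t.size : ℝ)) else 0 := by positivity
    linarith
  have h2 := sum_good_ge t
  have h3 : (((negS t).card : ℝ) ^ 2 / 2 + 2 * t.nodes * (noS t).card) / (12 * n * t.nodes) ≤
      (∑ i, (good t i : ℝ)) / (12 * n * t.nodes) := by gcongr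
  have h4 : (((negS t).card : ℝ) ^ 2 / 2 + 2 * t.nodes * (noS t).card) / (12 * n * t.nodes) =
      ((negS t).card : ℝ) ^ 2 / (24 * n * t.nodes) + (noS t).card / (6 * n) := by
    field_simp
    ring
  have h5 : ((negS t).card : ℝ) ^ 2 / (48 * n * t.size) ≤
      ((negS t).card : ℝ) ^ 2 / (24 * n * t.nodes) := by
    have : (t.nodes : ℝ) ≤ 2 * t.size := by
      have h6 := nodes_eq t
      have : t.nodes ≤ 2 * t.size := by omega
      exact_mod_cast this
    apply div_le_div_of_nonneg_left (by positivity) (by positivity)
    nlinarith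
  linarith

theorem sum_kap_small (t : Tree n) (h : 2 * t.size < n) : 1 / 12 ≤ ∑ i, kap i t := by
  refine le_trans ?_ (sum_kap_ge t)
  have hn0 : (0 : ℝ) < n := nR
  have h1 := noS_card t
  have h2 : (n : ℝ) / 2 ≤ (noS t).card := by
    have : n ≤ 2 * (noS t).card := by omega
    have : (n : ℝ) ≤ 2 * (noS t).card := by exact_mod_cast this
    linarith
  have h3 : (1 : ℝ) / 12 ≤ (noS t).card / (6 * n) := by
    rw [div_le_div_iff₀ (by norm_num) (by positivity)]
    linarith
  have : (0 : ℝ) ≤ ((negS t).card : ℝ) ^ 2 / (48 * n * t.size) := by positivity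
  linarith

theorem sum_kap_drift (t : Tree n) (h : fit (some t) < n) :
    1 ≤ 48 * n * ((t.size : ℝ) / ((n - fit (some t) : ℕ) : ℝ) ^ 2 +
      1 / ((n - fit (some t) : ℕ) : ℝ)) * ∑ i, kap i t := by
  have hn0 : (0 : ℝ) < n := nR
  have hT0 : (0 : ℝ) < t.size := by exact_mod_cast t.size_pos
  set u : ℕ := n - fit (some t) with hu
  have hu0 : 0 < u := by omega
  have hu1 : (0 : ℝ) < u := by exact_mod_cast hu0
  have hp := card_parts t
  have hsum : ((negS t).card : ℝ) + (noS t).card = u := by
    have : (negS t).card + (noS t).card = u := by omega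
    exact_mod_cast this
  set a : ℝ := ((negS t).card : ℝ) with ha
  set b : ℝ := ((noS t).card : ℝ) with hb
  have ha0 : 0 ≤ a := by positivity
  have hb0 : 0 ≤ b := by positivity
  have hk := sum_kap_ge t
  have hpos : (0 : ℝ) ≤ 48 * n * ((t.size : ℝ) / (u : ℝ) ^ 2 + 1 / (u : ℝ)) := by positivity
  refine le_trans ?_ (mul_le_mul_of_nonneg_left hk hpos)
  have e : 48 * n * ((t.size : ℝ) / (u : ℝ) ^ 2 + 1 / (u : ℝ)) *
      (a ^ 2 / (48 * n * t.size) + b / (6 * n)) =
      a ^ 2 / u ^ 2 + 8 * b / u + (8 * b * t.size / u ^ 2 + a ^ 2 / (t.size * u)) := by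
    field_simp
    ring
  rw [e]
  have h1 : (0 : ℝ) ≤ 8 * b * t.size / u ^ 2 + a ^ 2 / (t.size * u) := by positivity
  have h2 : (1 : ℝ) ≤ a ^ 2 / u ^ 2 + 8 * b / u := by
    have : a ^ 2 / u ^ 2 + 8 * b / u = (a ^ 2 + 8 * b * u) / u ^ 2 := by field_simp
    rw [this, le_div_iff₀ (by positivity)]
    have hbu : b = u - a := by linarith
    have hau : a ≤ u := by linarith
    rw [hbu]
    nlinarith
  linarith

theorem psi_le_kap (t : Tree n) (h : n ≤ 2 * t.size) (i : Fin n) (hi : ¬ Expressed t.leaves i) :
    psi i (some t) ≤ 72 * kap i t := by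
  have hN0 : (0 : ℝ) < t.nodes := by exact_mod_cast t.nodes_pos
  have hT0 : (0 : ℝ) < t.size := by exact_mod_cast t.size_pos
  have hn0 : (0 : ℝ) < n := nR
  rcases cases3 t.leaves i with h1 | h1 | ⟨P, Q, h1⟩
  · exact absurd h1 hi
  · rw [psi_noI h1, kap, good, if_neg hi, if_pos h1]
    have : (0 : ℝ) ≤ if Dl t i then 1 / (3 * (t.size : ℝ)) else 0 := by positivity
    have e : ((2 * t.nodes : ℕ) : ℝ) / (12 * n * t.nodes) = 1 / (6 * n) := by
      push_cast
      field_simp
      norm_num
    rw [e]
    have e2 : (1 : ℝ) / n ≤ 72 * (1 / (6 * n)) := by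
      have : 72 * (1 / (6 * (n : ℝ))) = 12 * (1 / n) := by field_simp; norm_num
      rw [this]
      have : (0 : ℝ) < 1 / n := by positivity
      linarith
    linarith
  · rw [psi_dec h1, kap, good, if_neg hi, if_neg h1.not_noI, h1.fi]
    have hD : Dl t i ↔ Expressed Q i := by
      unfold Dl
      rw [h1.drop]
      exact ⟨fun h => h.2.2, fun h => ⟨hi, h1.not_noI, h⟩⟩
    have hw : (1 : ℝ) ≤ wt t P.length := by exact_mod_cast wt_pos t P.length
    have hnod : (t.nodes : ℝ) ≤ 2 * t.size := by
      have h6 := nodes_eq t
      have : t.nodes ≤ 2 * t.size := by omega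
      exact_mod_cast this
    have hnT : (n : ℝ) ≤ 2 * t.size := by exact_mod_cast h
    have e1 : (wt t P.length : ℝ) / (n * t.size) ≤ 24 * (wt t P.length / (12 * n * t.nodes)) := by
      rw [← mul_div_assoc, div_le_div_iff₀ (by positivity) (by positivity)]
      have : (wt t P.length : ℝ) * (12 * n * t.nodes) ≤ wt t P.length * (12 * n * (2 * t.size)) := by
        gcongr
      linarith
    have e2 : 1 / (t.size : ℝ) ^ 2 ≤ 2 * (wt t P.length / (n * t.size)) := by
      have h7 : 1 / (t.size : ℝ) ^ 2 ≤ 2 * (1 / (n * t.size)) := by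
        rw [← mul_div_assoc, div_le_div_iff₀ (by positivity) (by positivity)]
        nlinarith
      have h8 : (1 : ℝ) / (n * t.size) ≤ wt t P.length / (n * t.size) := by gcongr
      linarith
    have e3 : (if Expressed Q i then 1 / (t.size : ℝ) else 0) ≤
        72 * (if Dl t i then 1 / (3 * (t.size : ℝ)) else 0) := by
      by_cases hq : Expressed Q i
      · rw [if_pos hq, if_pos (hD.2 hq)]
        have : 72 * (1 / (3 * (t.size : ℝ))) = 24 * (1 / t.size) := by field_simp; norm_num
        rw [this]
        have : (0 : ℝ) < 1 / t.size := by positivity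
        linarith
      · rw [if_neg hq, if_neg (fun h => hq (hD.1 h))]
        norm_num
    have : (0 : ℝ) ≤ wt t P.length / (12 * n * t.nodes) := by positivity
    linarith

/-! ### individuals -/

theorem imp_le_one (X Y : Ind n) : imp X Y ≤ 1 := by
  unfold imp; split_ifs <;> simp

theorem none_ge : (2 : ℝ≥0∞)⁻¹ ≤ Ex (hvl (none : Ind n)) (imp none) := by
  classical
  have hn0 : (0 : ℝ) < n := nR
  have h : ENNReal.ofReal (1 / 2) ≤ Ex (hvl (none : Ind n)) (imp none) := by
    show _ ≤ Ex ((PMF.uniformOfFintype (Lit n)).map fun x : Lit n => some (Tree.leaf x)) _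
    rw [Ex_map]
    refine Ex_uniform_ge _ (fun x : Lit n => if x.2 = true then (1 : ℝ) else 0) ?_ ?_ _ ?_
    · intro x
      rw [ofReal_ite]
      by_cases hx : x.2 = true
      · rw [if_pos hx]
        have h0 : fit (none : Ind n) = 0 := by
          have := fit_le_size (none : Ind n)
          simp only [size] at this
          omega
        have h1 : 0 < fit (some (Tree.leaf x)) := by
          apply Finset.card_pos.2
          refine ⟨x.1, ?_⟩
          simp only [Finset.mem_filter, Finset.mem_univ, true_and]
          have : leaves (some (Tree.leaf x)) = [(x.1, true)] := by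
            simp only [leaves, Tree.leaves]
            rw [← hx]
          rw [this]
          exact expressed_cons_true _ _
        unfold imp
        rw [if_pos (by rw [h0]; exact h1)]
      · rw [if_neg hx]; exact zero_le
    · intro x; positivity
    · rw [Fintype.card_prod, Fintype.card_fin, Fintype.card_bool, Fintype.sum_prod_type]
      have : ∀ i : Fin n, ∑ b : Bool, (if ((i, b) : Lit n).2 = true then (1 : ℝ) else 0) = 1 := by
        intro i
        rw [Fintype.sum_bool]
        simp
      rw [Finset.sum_congr rfl fun i _ => this i]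
      simp
  refine le_trans (le_of_eq ?_) h
  rw [one_div, ENNReal.ofReal_inv_of_pos (by norm_num)]
  norm_num

/-- `k` applications improve with probability at most `72 * 20 ^ k` times that of one. -/
theorem q_bound (k : ℕ) (X : Ind n) :
    Ex (mutate k X) (imp X) ≤ ENNReal.ofReal (72 * 20 ^ k) * Ex (hvl X) (imp X) := by
  classical
  have h20 : (1 : ℝ) ≤ 20 ^ k := one_le_pow₀ (by norm_num)
  have hone : Ex (mutate k X) (imp X) ≤ 1 := by
    refine (Ex_mono _ fun Y _ => imp_le_one X Y).trans ?_
    rw [Ex_const]
  cases X with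
  | none =>
    refine hone.trans ?_
    calc (1 : ℝ≥0∞) = ENNReal.ofReal 2 * (2 : ℝ≥0∞)⁻¹ := by
          rw [ENNReal.ofReal_ofNat]
          exact (ENNReal.mul_inv_cancel (by norm_num) (by norm_num)).symm
      _ ≤ ENNReal.ofReal (72 * 20 ^ k) * Ex (hvl (none : Ind n)) (imp none) := by
          refine mul_le_mul' (ENNReal.ofReal_le_ofReal ?_) none_ge
          linarith
  | some t =>
    have hk := kap_le t
    have hk0 : 0 ≤ ∑ i, kap i t := Finset.sum_nonneg fun i _ => kap_nonneg i t
    refine le_trans ?_ (mul_le_mul_right hk _)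
    rw [← ENNReal.ofReal_mul (by positivity)]
    by_cases hs : 2 * t.size < n
    · refine hone.trans ?_
      rw [← ENNReal.ofReal_one]
      apply ENNReal.ofReal_le_ofReal
      have := sum_kap_small t hs
      nlinarith
    · set U := Finset.univ.filter fun i : Fin n => ¬ Expressed t.leaves i with hU
      have h1 : ∀ Y, imp (some t) Y ≤ ∑ i ∈ U, ENNReal.ofReal (psi i Y) := by
        intro Y
        unfold imp
        split_ifs with hlt
        · have : ∃ i, ¬ Expressed t.leaves i ∧ Expressed (leaves Y) i := by
            by_contra hc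
            push Not at hc
            apply absurd hlt
            rw [not_lt]
            apply Finset.card_le_card
            intro i hi
            simp only [Finset.mem_filter, Finset.mem_univ, true_and] at hi ⊢
            by_contra h2
            exact hc i h2 hi
          obtain ⟨i, hi1, hi2⟩ := this
          have hiU : i ∈ U := by simp [hU, hi1]
          have hpsi : psi i Y = 1 := by
            cases Y with
            | none => exact absurd (expressed_mem hi2) (by simp [leaves])
            | some t' => exact psi_exp hi2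
          calc (1 : ℝ≥0∞) = ENNReal.ofReal (psi i Y) := by rw [hpsi]; simp
            _ ≤ ∑ i ∈ U, ENNReal.ofReal (psi i Y) :=
              Finset.single_le_sum (f := fun i => ENNReal.ofReal (psi i Y))
                (fun _ _ => zero_le) hiU
        · exact zero_le
      have h2 : Ex (mutate k (some t)) (imp (some t)) ≤
          ∑ i ∈ U, Ex (mutate k (some t)) (fun Y => ENNReal.ofReal (psi i Y)) := by
        refine (Ex_mono _ fun Y _ => h1 Y).trans (le_of_eq ?_)
        unfold Ex
        simp only [Finset.mul_sum]
        rw [Summable.tsum_finsetSum fun _ _ => ENNReal.summable]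
      refine h2.trans ?_
      calc ∑ i ∈ U, Ex (mutate k (some t)) (fun Y => ENNReal.ofReal (psi i Y))
          ≤ ∑ i ∈ U, ENNReal.ofReal (20 ^ k * (72 * kap i t)) := by
            apply Finset.sum_le_sum
            intro i hi
            refine (Ex_psi_mutate i k (some t)).trans ?_
            apply ENNReal.ofReal_le_ofReal
            apply mul_le_mul_of_nonneg_left _ (by positivity)
            apply psi_le_kap t (by omega) i
            simpa [hU] using hi
        _ = ENNReal.ofReal (∑ i ∈ U, 20 ^ k * (72 * kap i t)) := by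
            rw [ENNReal.ofReal_sum_of_nonneg]
            intro i _
            have := kap_nonneg i t
            positivity
        _ ≤ ENNReal.ofReal (72 * 20 ^ k * ∑ i, kap i t) := by
            apply ENNReal.ofReal_le_ofReal
            rw [Finset.mul_sum]
            refine le_trans ?_ (Finset.sum_le_sum_of_subset_of_nonneg (Finset.subset_univ U) ?_)
            · apply Finset.sum_le_sum
              intro i _
              apply le_of_eq; ring
            · intro i _ _
              have := kap_nonneg i t
              positivity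

/-- the improvement probability of one application is large enough -/
theorem p_drift (X : Ind n) (h : ¬ Optimal X) :
    1 ≤ ENNReal.ofReal (48 * n * ((size X : ℝ) / ((n - fit X : ℕ) : ℝ) ^ 2 +
      1 / ((n - fit X : ℕ) : ℝ))) * Ex (hvl X) (imp X) := by
  have hlt : fit X < n := lt_of_le_of_ne (fit_le_n X) h
  have hn0 : (0 : ℝ) < n := nR
  cases X with
  | none =>
    have h0 : fit (none : Ind n) = 0 := by
      have := fit_le_size (none : Ind n)
      simp only [size] at this
      omega
    rw [h0]
    calc (1 : ℝ≥0∞) = ENNReal.ofReal 2 * (2 : ℝ≥0∞)⁻¹ := by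
          rw [ENNReal.ofReal_ofNat]
          exact (ENNReal.mul_inv_cancel (by norm_num) (by norm_num)).symm
      _ ≤ _ := by
          refine mul_le_mul' (ENNReal.ofReal_le_ofReal ?_) none_ge
          simp only [size, Nat.sub_zero, Nat.cast_zero, zero_div, zero_add]
          have : 48 * (n : ℝ) * (1 / n) = 48 := by field_simp
          rw [this]; norm_num
  | some t =>
    have hk := kap_le t
    have h1 := sum_kap_drift t hlt
    refine le_trans ?_ (mul_le_mul_right hk _)
    rw [← ENNReal.ofReal_mul (by positivity), ← ENNReal.ofReal_one]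
    exact ENNReal.ofReal_le_ofReal h1

end

end Q231.GPS
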