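import Pool.Agent.Q231.Smo.Expect

/-!
# The strictly elitist (1+1) GP* on ORDER

Trees, ORDER and one application of HVL-Prime (`Q231.Smo.hvl`) are those of
`Pool/Agent/Q231/Smo/Defs.lean`. Here: the number of applications `1 + Poisson(1)`, the
algorithm (1+1) GP* and its optimization time.
-/

namespace Q231.GPS

open scoped ENNReal
open Q231.Smo

theorem hasSum_poisson : HasSum (fun m : ℕ => ENNReal.ofReal (Real.exp (-1) / m.factorial)) 1 := by
  have h1 : HasSum (fun m : ℕ => Real.exp (-1) / m.factorial) 1 := by
    have h := (NormedSpace.expSeries_div_hasSum_exp (1 : ℝ)).mul_left (Real.exp (-1))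
    rw [← Real.exp_eq_exp_ℝ, ← Real.exp_add] at h
    simpa [div_eq_mul_inv] using h
  have h0 : ∀ m : ℕ, 0 ≤ Real.exp (-1) / m.factorial := fun m => by positivity
  rw [ENNReal.summable.hasSum_iff, ← ENNReal.ofReal_tsum_of_nonneg h0 h1.summable, h1.tsum_eq]
  simp

/-- The Poisson distribution with parameter `1`: the value `m` has probability `exp(-1) / m!`. -/
noncomputable def poisson1 : PMF ℕ :=
  ⟨fun m => ENNReal.ofReal (Real.exp (-1) / m.factorial), hasSum_poisson⟩

/-- The number of applications of HVL-Prime in one iteration: `1 + Poisson(1)`. -/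
noncomputable def numOps : PMF ℕ := poisson1.map fun m => 1 + m

variable {n : ℕ} [NeZero n]

/-- `k` successive applications of HVL-Prime. -/
noncomputable def mutate : ℕ → Ind n → PMF (Ind n)
  | 0, X => PMF.pure X
  | k + 1, X => (hvl X).bind (mutate k)

/-- The strict selection: the offspring `Y` replaces `X` iff its fitness is larger. -/
def sel (X Y : Ind n) : Ind n := if fit X < fit Y then Y else X

/-- One iteration of the (1+1) GP*. -/
noncomputable def step (X : Ind n) : PMF (Ind n) :=
  numOps.bind fun k => (mutate k X).map fun Y => sel X Y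

/-- A tree is optimal when all `n` variables are expressed. -/
def Optimal (X : Ind n) : Prop := fit X = n

instance (X : Ind n) : Decidable (Optimal X) := by unfold Optimal; infer_instance

/-- The probability that the (1+1) GP*, started with `X`, has no optimal tree at any of the times
`0, 1, ..., t`. -/
noncomputable def pending : ℕ → Ind n → ℝ≥0∞
  | 0, X => if Optimal X then 0 else 1
  | t + 1, X => if Optimal X then 0 else ∑' Y, step X Y * pending t Y

/-- The expected optimization time `E[τ] = ∑ Pr[τ > t]` from the initial tree `X`. -/
noncomputable def expectedTime (X : Ind n) : ℝ≥0∞ := ∑' t, pending t X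

end Q231.GPS
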