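import Pool.Agent.Q231.GPS.Bound

namespace Q231.GPS

open Q231.Smo
open scoped ENNReal

/-! ### the two sums -/

noncomputable def g (u : ℕ) : ℝ := ∑ j ∈ Finset.range u, 1 / ((j : ℝ) + 1) ^ 2
noncomputable def h (u : ℕ) : ℝ := ∑ j ∈ Finset.range u, 1 / ((j : ℝ) + 1)

theorem g_nonneg (u : ℕ) : 0 ≤ g u := Finset.sum_nonneg fun _ _ => by positivity
theorem h_nonneg (u : ℕ) : 0 ≤ h u := Finset.sum_nonneg fun _ _ => by positivity

theorem g_mono {u v : ℕ} (huv : u ≤ v) : g u ≤ g v :=
  Finset.sum_le_sum_of_subset_of_nonneg (Finset.range_mono huv) fun _ _ _ => by positivity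

theorem h_mono {u v : ℕ} (huv : u ≤ v) : h u ≤ h v :=
  Finset.sum_le_sum_of_subset_of_nonneg (Finset.range_mono huv) fun _ _ _ => by positivity

theorem g_succ (u : ℕ) : g (u + 1) = g u + 1 / ((u : ℝ) + 1) ^ 2 := by
  unfold g; rw [Finset.sum_range_succ]

theorem h_succ (u : ℕ) : h (u + 1) = h u + 1 / ((u : ℝ) + 1) := by
  unfold h; rw [Finset.sum_range_succ]

theorem g_le (u : ℕ) : g (u + 1) ≤ 2 - 1 / ((u : ℝ) + 1) := by
  induction u with
  | zero => norm_num [g]
  | succ u ih =>
    rw [g_succ]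
    have e : 1 / ((u : ℝ) + 1) - 1 / (((u + 1 : ℕ) : ℝ) + 1) =
        1 / (((u : ℝ) + 1) * ((u : ℝ) + 2)) := by
      push_cast
      field_simp
      ring
    have h1 : 1 / ((((u + 1 : ℕ) : ℝ)) + 1) ^ 2 ≤ 1 / (((u : ℝ) + 1) * ((u : ℝ) + 2)) := by
      apply one_div_le_one_div_of_le (by positivity)
      push_cast
      have : (0 : ℝ) ≤ u := by positivity
      nlinarith
    linarith

theorem g_le_two (u : ℕ) : g u ≤ 2 := by
  cases u with
  | zero => norm_num [g]
  | succ u =>
    have h1 := g_le u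
    have : 0 < 1 / ((u : ℝ) + 1) := by positivity
    linarith

theorem h_le (u : ℕ) : h u ≤ u := by
  induction u with
  | zero => simp [h]
  | succ u ih =>
    rw [h_succ]
    push_cast
    have : 1 / ((u : ℝ) + 1) ≤ 1 := by
      rw [div_le_one (by positivity)]
      have : (0 : ℝ) ≤ u := by positivity
      linarith
    linarith

variable {n : ℕ} [NeZero n]

/-- the potential function -/
noncomputable def V (b : ℝ) (X : Ind n) : ℝ :=
  n * (((size X : ℝ) + b * ((n - fit X : ℕ) : ℝ)) * g (n - fit X) + h (n - fit X))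

theorem V_nonneg (b : ℝ) (hb : 0 ≤ b) (X : Ind n) : 0 ≤ V b X := by
  unfold V
  have := g_nonneg (n - fit X)
  have := h_nonneg (n - fit X)
  positivity

theorem V_point (b : ℝ) (hb : 0 ≤ b) (X Y : Ind n) (k : ℕ) (hk : size Y ≤ size X + k)
    (hX : ¬ Optimal X) (hXY : fit X < fit Y) :
    V b Y + n * (b * g (n - fit X - 1) + ((size X : ℝ) / ((n - fit X : ℕ) : ℝ) ^ 2 +
      1 / ((n - fit X : ℕ) : ℝ))) ≤ V b X + n * g (n - fit X - 1) * k := by
  have hlt : fit X < n := lt_of_le_of_ne (fit_le_n X) hX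
  have hY := fit_le_n Y
  obtain ⟨u, hu⟩ : ∃ u, n - fit X = u + 1 := ⟨n - fit X - 1, by omega⟩
  have huY : n - fit Y ≤ u := by omega
  have hn0 : (0 : ℝ) < n := nR
  unfold V
  rw [hu, Nat.add_sub_cancel, g_succ, h_succ]
  have h1 : ((size Y : ℝ) + b * ((n - fit Y : ℕ) : ℝ)) * g (n - fit Y) + h (n - fit Y) ≤
      ((size X : ℝ) + k + b * u) * g u + h u := by
    have a1 : (size Y : ℝ) ≤ size X + k := by exact_mod_cast hk
    have a2 : ((n - fit Y : ℕ) : ℝ) ≤ u := by exact_mod_cast huY
    have a3 := g_nonneg (n - fit Y)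
    have a4 : ((size Y : ℝ) + b * ((n - fit Y : ℕ) : ℝ)) ≤ ((size X : ℝ) + k + b * u) := by
      have := mul_le_mul_of_nonneg_left a2 hb
      linarith
    have a5 : ((size Y : ℝ) + b * ((n - fit Y : ℕ) : ℝ)) * g (n - fit Y) ≤
        ((size X : ℝ) + k + b * u) * g u :=
      mul_le_mul a4 (g_mono huY) a3 (by positivity)
    have := h_mono huY
    linarith
  have h2 := mul_le_mul_of_nonneg_left h1 hn0.le
  have h3 : (0 : ℝ) ≤ n * (b * ((u : ℝ) + 1) * (1 / ((u : ℝ) + 1) ^ 2)) := by positivity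
  have h4 : (n : ℝ) * (((size X : ℝ) + b * ((u + 1 : ℕ) : ℝ)) * (g u + 1 / ((u : ℝ) + 1) ^ 2) +
      (h u + 1 / ((u : ℝ) + 1))) + n * g u * k =
      n * (((size X : ℝ) + k + b * u) * g u + h u) +
      n * (b * g u + ((size X : ℝ) / ((u + 1 : ℕ) : ℝ) ^ 2 + 1 / ((u + 1 : ℕ) : ℝ))) +
      n * (b * ((u : ℝ) + 1) * (1 / ((u : ℝ) + 1) ^ 2)) := by
    push_cast
    ring
  rw [h4]
  linarith

theorem mutate_size (k : ℕ) (X Y : Ind n) (hY : mutate k X Y ≠ 0) : size Y ≤ size X + k := by
  induction k generalizing X with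
  | zero =>
    rw [mutate, ← PMF.mem_support_iff, PMF.mem_support_pure_iff] at hY
    rw [hY]; omega
  | succ k ih =>
    rw [mutate, ← PMF.mem_support_iff, PMF.mem_support_bind_iff] at hY
    obtain ⟨Z, hZ, hY⟩ := hY
    have h1 := ih Z hY
    have h2 := (hvl_support X Z hZ).1
    omega

/-- the moment of the number of operations -/
noncomputable def S : ℝ≥0∞ := Ex numOps fun k => ENNReal.ofReal (k * (72 * 20 ^ k))

theorem S_ne_top : S ≠ ∞ := by
  unfold S numOps
  rw [Ex_map]
  have h1 : ∀ m : ℕ, poisson1 m * ENNReal.ofReal (((1 + m : ℕ) : ℝ) * (72 * 20 ^ (1 + m))) ≤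
      ENNReal.ofReal (1440 * (40 ^ m / m.factorial)) := by
    intro m
    show ENNReal.ofReal (Real.exp (-1) / m.factorial) * _ ≤ _
    rw [← ENNReal.ofReal_mul (by positivity)]
    apply ENNReal.ofReal_le_ofReal
    have hm : ((1 + m : ℕ) : ℝ) ≤ 2 ^ m := by
      have : m + 1 ≤ 2 ^ m := Nat.lt_two_pow_self
      have h2 : 1 + m ≤ 2 ^ m := by omega
      exact_mod_cast h2
    have he : Real.exp (-1) ≤ 1 := by
      rw [Real.exp_le_one_iff]; norm_num
    calc Real.exp (-1) / m.factorial * (((1 + m : ℕ) : ℝ) * (72 * 20 ^ (1 + m)))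
        ≤ 1 / m.factorial * (2 ^ m * (72 * 20 ^ (1 + m))) := by gcongr
      _ = 1440 * (40 ^ m / m.factorial) := by
          have : (40 : ℝ) ^ m = 2 ^ m * 20 ^ m := by rw [← mul_pow]; norm_num
          rw [this, pow_add]
          ring
  have h2 : Summable fun m : ℕ => 1440 * ((40 : ℝ) ^ m / m.factorial) :=
    (Real.summable_pow_div_factorial 40).mul_left _
  refine ne_top_of_le_ne_top ?_ (ENNReal.tsum_le_tsum h1)
  rw [← ENNReal.ofReal_tsum_of_nonneg (fun m => by positivity) h2]
  exact ENNReal.ofReal_ne_top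

/-- partial sums of the tail probabilities are bounded by any supersolution -/
theorem expectedTime_le (U : Ind n → ℝ≥0∞)
    (hU : ∀ X, ¬ Optimal X → 1 + Ex (step X) U ≤ U X) (X : Ind n) : expectedTime X ≤ U X := by
  classical
  have key : ∀ t : ℕ, ∀ X, ∑ s ∈ Finset.range t, pending s X ≤ U X := by
    intro t
    induction t with
    | zero => intro X; simp
    | succ t ih =>
      intro X
      by_cases hc : Optimal X
      · have : ∀ s, pending s X = 0 := by
          intro s
          cases s <;> simp [pending, hc]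
        simp [this]
      · rw [Finset.sum_range_succ']
        have h0 : pending 0 X = 1 := by simp [pending, hc]
        have h1 : ∀ s, pending (s + 1) X = Ex (step X) (pending s) := by
          intro s
          rw [pending, if_neg hc]; rfl
        rw [h0]
        simp only [h1]
        have h2 : ∑ s ∈ Finset.range t, Ex (step X) (pending s) =
            Ex (step X) fun Q => ∑ s ∈ Finset.range t, pending s Q := by
          unfold Ex
          simp only [Finset.mul_sum]
          rw [Summable.tsum_finsetSum fun _ _ => ENNReal.summable]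
        rw [h2]
        calc Ex (step X) (fun Q => ∑ s ∈ Finset.range t, pending s Q) + 1
            ≤ Ex (step X) U + 1 := by
              gcongr
              exact Ex_mono _ fun Q _ => ih Q
          _ = 1 + Ex (step X) U := add_comm _ _
          _ ≤ U X := hU X hc
  unfold expectedTime
  rw [ENNReal.tsum_eq_iSup_nat]
  exact iSup_le fun t => key t _

theorem Ex_mul_const {α : Type*} (p : PMF α) (c : ℝ≥0∞) (g : α → ℝ≥0∞) :
    Ex p (fun a => g a * c) = Ex p g * c := by
  unfold Ex
  rw [← ENNReal.tsum_mul_right]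
  congr 1
  ext a
  ring

/-- the drift inequality -/
theorem drift (b : ℝ) (hb : 0 ≤ b) (hS : S * ENNReal.ofReal (Real.exp 1) ≤ ENNReal.ofReal b)
    (X : Ind n) (hX : ¬ Optimal X) :
    1 + Ex (step X) (fun Y => ENNReal.ofReal (48 * Real.exp 1) * ENNReal.ofReal (V b Y)) ≤
      ENNReal.ofReal (48 * Real.exp 1) * ENNReal.ofReal (V b X) := by
  classical
  have hn0 : (0 : ℝ) < n := nR
  set G : ℝ := g (n - fit X - 1) with hG
  have hG0 : 0 ≤ G := g_nonneg _
  set W : ℝ := (size X : ℝ) / ((n - fit X : ℕ) : ℝ) ^ 2 + 1 / ((n - fit X : ℕ) : ℝ) with hW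
  have hW0 : 0 ≤ W := by positivity
  set q : ℕ → ℝ≥0∞ := fun k => Ex (mutate k X) (imp X) with hq
  set P1 : ℝ≥0∞ := Ex (hvl X) (imp X) with hP1
  set Q : ℝ≥0∞ := Ex numOps q with hQ
  have hstep : Ex (step X) (fun Y => ENNReal.ofReal (V b Y)) =
      Ex numOps fun k => Ex (mutate k X) fun Y => ENNReal.ofReal (V b (sel X Y)) := by
    rw [step, Ex_bind]
    simp only [Ex_map]
  -- pointwise in `k`
  have hk : ∀ k, Ex (mutate k X) (fun Y => ENNReal.ofReal (V b (sel X Y))) +
      ENNReal.ofReal (n * (b * G + W)) * q k ≤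
      ENNReal.ofReal (V b X) + ENNReal.ofReal (n * G * k) * q k := by
    intro k
    rw [hq]
    simp only
    rw [← Ex_const_mul, ← Ex_const_mul, ← Ex_add]
    have e : ENNReal.ofReal (V b X) + Ex (mutate k X)
        (fun Y => ENNReal.ofReal (n * G * k) * imp X Y) =
        Ex (mutate k X) (fun Y => ENNReal.ofReal (V b X) + ENNReal.ofReal (n * G * k) * imp X Y) := by
      rw [Ex_add, Ex_const]
    rw [e]
    apply Ex_mono
    intro Y hY
    have hsz := mutate_size k X Y hY
    unfold imp sel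
    by_cases hXY : fit X < fit Y
    · rw [if_pos hXY, if_pos hXY, mul_one, mul_one,
        ← ENNReal.ofReal_add (V_nonneg b hb _) (by positivity),
        ← ENNReal.ofReal_add (V_nonneg b hb _) (by positivity)]
      exact ENNReal.ofReal_le_ofReal (V_point b hb X Y k hsz hX hXY)
    · rw [if_neg hXY, if_neg hXY, mul_zero, mul_zero]
  have hsum : Ex (step X) (fun Y => ENNReal.ofReal (V b Y)) +
      ENNReal.ofReal (n * (b * G + W)) * Q ≤ ENNReal.ofReal (V b X) +
      Ex numOps (fun k => ENNReal.ofReal (n * G * k) * q k) := by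
    rw [hstep, hQ, ← Ex_const_mul, ← Ex_add]
    have e : ENNReal.ofReal (V b X) + Ex numOps (fun k : ℕ => ENNReal.ofReal (n * G * k) * q k) =
        Ex numOps (fun k : ℕ => ENNReal.ofReal (V b X) + ENNReal.ofReal (n * G * k) * q k) := by
      rw [Ex_add, Ex_const]
    rw [e]
    exact Ex_mono _ fun k _ => hk k
  have hP1Q : P1 ≤ ENNReal.ofReal (Real.exp 1) * Q := by
    have h1 : ENNReal.ofReal (Real.exp (-1)) * P1 ≤ Q := by
      rw [hQ, numOps, Ex_map]
      have h2 : q (1 + 0) = P1 := by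
        rw [hq]
        show Ex (mutate 1 X) (imp X) = P1
        rw [mutate, Ex_bind, hP1]
        congr 1
        ext Y
        rw [mutate, Ex_pure]
      have h3 : poisson1 0 = ENNReal.ofReal (Real.exp (-1)) := by
        show ENNReal.ofReal (Real.exp (-1) / (Nat.factorial 0)) = _
        simp
      rw [← h2, ← h3]
      exact ENNReal.le_tsum (f := fun m => poisson1 m * q (1 + m)) 0
    calc P1 = ENNReal.ofReal (Real.exp 1) * (ENNReal.ofReal (Real.exp (-1)) * P1) := by
          rw [← mul_assoc, ← ENNReal.ofReal_mul (by positivity), ← Real.exp_add]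
          simp
      _ ≤ _ := by gcongr
  have hmom : Ex numOps (fun k => ENNReal.ofReal (n * G * k) * q k) ≤
      ENNReal.ofReal (n * (b * G)) * Q := by
    calc Ex numOps (fun k : ℕ => ENNReal.ofReal (n * G * k) * q k)
        ≤ Ex numOps (fun k : ℕ => ENNReal.ofReal (k * (72 * 20 ^ k)) *
            (ENNReal.ofReal (n * G) * P1)) := by
          apply Ex_mono
          intro k _
          calc ENNReal.ofReal (n * G * k) * q k
              ≤ ENNReal.ofReal (n * G * k) * (ENNReal.ofReal (72 * 20 ^ k) * P1) := by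
                gcongr
                exact q_bound k X
            _ = ENNReal.ofReal (k * (72 * 20 ^ k)) * (ENNReal.ofReal (n * G) * P1) := by
                rw [← mul_assoc, ← mul_assoc, ← ENNReal.ofReal_mul (by positivity),
                  ← ENNReal.ofReal_mul (by positivity)]
                congr 2
                ring
      _ = S * (ENNReal.ofReal (n * G) * P1) := by rw [Ex_mul_const]; rfl
      _ ≤ S * (ENNReal.ofReal (n * G) * (ENNReal.ofReal (Real.exp 1) * Q)) := by gcongr
      _ = (S * ENNReal.ofReal (Real.exp 1)) * (ENNReal.ofReal (n * G) * Q) := by ring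
      _ ≤ ENNReal.ofReal b * (ENNReal.ofReal (n * G) * Q) := by gcongr
      _ = ENNReal.ofReal (n * (b * G)) * Q := by
          rw [← mul_assoc, ← ENNReal.ofReal_mul hb]
          congr 2
          ring
  have hQ1 : Q ≤ 1 := by
    rw [hQ]
    refine (Ex_mono (g := fun _ => 1) _ fun k _ => ?_).trans ?_
    · rw [hq]
      refine (Ex_mono _ fun Y _ => imp_le_one X Y).trans ?_
      rw [Ex_const]
    · rw [Ex_const]
  have hfin : ENNReal.ofReal (n * (b * G)) * Q ≠ ∞ :=
    ENNReal.mul_ne_top ENNReal.ofReal_ne_top (ne_top_of_le_ne_top ENNReal.one_ne_top hQ1)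
  have hmain : Ex (step X) (fun Y => ENNReal.ofReal (V b Y)) + ENNReal.ofReal (n * W) * Q ≤
      ENNReal.ofReal (V b X) := by
    have h1 := hsum.trans (add_le_add_right hmom _)
    have h2 : ENNReal.ofReal (n * (b * G + W)) * Q =
        ENNReal.ofReal (n * W) * Q + ENNReal.ofReal (n * (b * G)) * Q := by
      rw [← add_mul, ← ENNReal.ofReal_add (by positivity) (by positivity)]
      congr 2
      ring
    rw [h2, ← add_assoc] at h1
    exact (ENNReal.add_le_add_iff_right hfin).1 h1
  have hone : 1 ≤ ENNReal.ofReal (48 * Real.exp 1) * (ENNReal.ofReal (n * W) * Q) := by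
    refine (p_drift X hX).trans ?_
    calc ENNReal.ofReal (48 * n * ((size X : ℝ) / ((n - fit X : ℕ) : ℝ) ^ 2 +
          1 / ((n - fit X : ℕ) : ℝ))) * Ex (hvl X) (imp X)
        ≤ ENNReal.ofReal (48 * n * W) * (ENNReal.ofReal (Real.exp 1) * Q) := by gcongr
      _ = ENNReal.ofReal (48 * Real.exp 1) * (ENNReal.ofReal (n * W) * Q) := by
          rw [← mul_assoc, ← mul_assoc, ← ENNReal.ofReal_mul (by positivity),
            ← ENNReal.ofReal_mul (by positivity)]
          congr 2
          ring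
  rw [Ex_const_mul]
  calc 1 + ENNReal.ofReal (48 * Real.exp 1) * Ex (step X) (fun Y => ENNReal.ofReal (V b Y))
      ≤ ENNReal.ofReal (48 * Real.exp 1) * (ENNReal.ofReal (n * W) * Q) +
        ENNReal.ofReal (48 * Real.exp 1) * Ex (step X) (fun Y => ENNReal.ofReal (V b Y)) := by
        gcongr
    _ = ENNReal.ofReal (48 * Real.exp 1) *
        (Ex (step X) (fun Y => ENNReal.ofReal (V b Y)) + ENNReal.ofReal (n * W) * Q) := by ring
    _ ≤ _ := by gcongr

theorem main : ∃ C : ℝ, ∀ (n : ℕ) [NeZero n] (X : Ind n),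
    expectedTime X ≤ ENNReal.ofReal (C * ((n : ℝ) ^ 2 + n * size X)) := by
  have hfin : S * ENNReal.ofReal (Real.exp 1) ≠ ∞ :=
    ENNReal.mul_ne_top S_ne_top ENNReal.ofReal_ne_top
  set b : ℝ := (S * ENNReal.ofReal (Real.exp 1)).toReal with hb
  have hb0 : 0 ≤ b := ENNReal.toReal_nonneg
  have hS : S * ENNReal.ofReal (Real.exp 1) ≤ ENNReal.ofReal b := by
    rw [hb, ENNReal.ofReal_toReal hfin]
  refine ⟨48 * Real.exp 1 * (2 * b + 2), ?_⟩
  intro n _ X
  refine (expectedTime_le _ (drift b hb0 hS) X).trans ?_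
  rw [← ENNReal.ofReal_mul (by positivity)]
  apply ENNReal.ofReal_le_ofReal
  rw [mul_assoc (48 * Real.exp 1)]
  apply mul_le_mul_of_nonneg_left _ (by positivity)
  unfold V
  have hn0 : (0 : ℝ) < n := nR
  have h1 : ((n - fit X : ℕ) : ℝ) ≤ n := by
    have : n - fit X ≤ n := by omega
    exact_mod_cast this
  have h2 := g_le_two (n - fit X)
  have h3 := h_le (n - fit X)
  have h4 := g_nonneg (n - fit X)
  have h5 : ((size X : ℝ) + b * ((n - fit X : ℕ) : ℝ)) * g (n - fit X) ≤
      ((size X : ℝ) + b * n) * 2 := by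
    apply mul_le_mul _ h2 h4 (by positivity)
    have := mul_le_mul_of_nonneg_left h1 hb0
    linarith
  have h6 : ((size X : ℝ) + b * ((n - fit X : ℕ) : ℝ)) * g (n - fit X) + h (n - fit X) ≤
      ((size X : ℝ) + b * n) * 2 + n := by linarith
  have h7 := mul_le_mul_of_nonneg_left h6 hn0.le
  refine h7.trans ?_
  have h8 : (0 : ℝ) ≤ b * n * size X := by positivity
  nlinarith [sq_nonneg (n : ℝ)]

end Q231.GPS
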