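import Pool.Agent.Q231.GPS.Step

namespace Q231.GPS

open Q231.Smo
open scoped ENNReal

variable {n : ℕ} [NeZero n]

theorem Ex_le_seven (i : Fin n) (X : Ind n) :
    Ex (hvl X) (fun Y => ENNReal.ofReal (psi i Y)) ≤ ENNReal.ofReal 7 := by
  refine (Ex_mono _ fun Y _ => ENNReal.ofReal_le_ofReal (psi_le_seven i Y)).trans ?_
  rw [Ex_const]

theorem noI_ins {t : Tree n} {i : Fin n} (h : NoI t.leaves i) (v : ℕ) (hv : v < t.nodes)
    (x : Lit n) (b : Bool) (hx : x.1 ≠ i) : psi i (some (t.ins v x b)) = 1 / n := by
  apply psi_noI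
  rw [ins_leaves t v hv]
  exact (h.sub fun y hy => List.mem_of_mem_take hy).append
    ((h.sub fun y hy => List.mem_of_mem_drop hy).cons hx)

theorem noI_sub {t : Tree n} {i : Fin n} (h : NoI t.leaves i) (v : ℕ)
    (x : Lit n) (hx : x.1 ≠ i) : psi i (some (t.sub v x)) = 1 / n := by
  apply psi_noI
  cases hl : lf t v with
  | none => rw [sub_none t v x hl]; exact h
  | some m =>
    rw [sub_leaves t v x m hl]
    intro y hy
    rcases List.mem_or_eq_of_mem_set hy with h1 | h1
    · exact h y h1
    · rw [h1]; exact hx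

theorem noI_del {t : Tree n} {i : Fin n} (h : NoI t.leaves i) (v : ℕ) (hv : v < t.size) :
    psi i (t.del v) = 1 / n := by
  have hL := t.del_leaves v hv
  cases hd : t.del v with
  | none => rfl
  | some t' =>
    rw [hd] at hL
    apply psi_noI
    have : t'.leaves = t.leaves.eraseIdx v := hL
    rw [this]
    exact h.sub fun y hy => List.mem_of_mem_eraseIdx hy

theorem sum_var (i : Fin n) (K : ℝ) : ∑ x : Lit n, (if x.1 = i then K else 0) = 2 * K := by
  rw [Fintype.sum_prod_type]
  have : ∀ j : Fin n, ∑ b : Bool, (if ((j, b) : Lit n).1 = i then K else 0) =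
      if j = i then 2 * K else 0 := by
    intro j
    rw [Fintype.sum_bool]
    by_cases h : j = i
    · rw [if_pos h, if_pos h]; ring
    · rw [if_neg h, if_neg h]; ring
  rw [Finset.sum_congr rfl fun j _ => this j, Finset.sum_ite_eq', if_pos (Finset.mem_univ _)]

theorem Ex_psi_noI {i : Fin n} {t : Tree n} (h : NoI t.leaves i) :
    Ex (hvl (some t)) (fun Y => ENNReal.ofReal (psi i Y)) ≤
      ENNReal.ofReal (20 * psi i (some t)) := by
  classical
  have hn := npos i
  have hn0 : (0 : ℝ) < n := by linarith
  have hN0 : (0 : ℝ) < t.nodes := by exact_mod_cast t.nodes_pos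
  rw [psi_noI h]
  refine (Ex_hvl_parts t _ (8 * (1 / n)) (1 / n) (8 * (1 / n))
    (by positivity) (by positivity) (by positivity) ?_ ?_ ?_).trans ?_
  · refine Ex_uniform_le _ (fun c : Fin t.nodes × Lit n × Bool =>
      1 / (n : ℝ) + if c.2.1.1 = i then 7 else 0) ?_ ?_ _ ?_
    · intro c
      apply ENNReal.ofReal_le_ofReal
      by_cases hc : c.2.1.1 = i
      · rw [if_pos hc]
        have := psi_le_seven i (some (t.ins c.1 c.2.1 c.2.2))
        have : (0 : ℝ) < 1 / n := by positivity
        linarith
      · rw [if_neg hc, noI_ins h c.1 c.1.2 _ _ hc, add_zero]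
    · intro c; positivity
    · rw [Finset.sum_add_distrib, Finset.sum_const, Finset.card_univ, nsmul_eq_mul, card_ins,
        Fintype.sum_prod_type]
      have h0 : ∀ v : Fin t.nodes, ∑ y : Lit n × Bool,
          (if ((v, y) : Fin t.nodes × Lit n × Bool).2.1.1 = i then (7 : ℝ) else 0) = 28 := by
        intro v
        rw [Fintype.sum_prod_type]
        have h2 : ∀ x : Lit n, ∑ b : Bool,
            (if ((v, (x, b)) : Fin t.nodes × Lit n × Bool).2.1.1 = i then (7 : ℝ) else 0) =
            if x.1 = i then 14 else 0 := by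
          intro x
          rw [Fintype.sum_bool]
          show (if x.1 = i then (7 : ℝ) else 0) + (if x.1 = i then 7 else 0) = _
          split_ifs <;> norm_num
        rw [Finset.sum_congr rfl fun x _ => h2 x, sum_var]
        norm_num
      rw [Finset.sum_congr rfl fun v _ => h0 v, Finset.sum_const, Finset.card_univ,
        Fintype.card_fin, nsmul_eq_mul]
      apply le_of_eq
      field_simp
      ring
  · refine Ex_uniform_le _ (fun v : Fin t.size => 1 / (n : ℝ)) ?_ ?_ _ ?_
    · intro v
      rw [noI_del h v v.2]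
    · intro v; positivity
    · rw [Finset.sum_const, Finset.card_univ, nsmul_eq_mul]
  · refine Ex_uniform_le _ (fun c : Fin t.nodes × Lit n =>
      1 / (n : ℝ) + if c.2.1 = i then 7 else 0) ?_ ?_ _ ?_
    · intro c
      apply ENNReal.ofReal_le_ofReal
      by_cases hc : c.2.1 = i
      · rw [if_pos hc]
        have := psi_le_seven i (some (t.sub c.1 c.2))
        have : (0 : ℝ) < 1 / n := by positivity
        linarith
      · rw [if_neg hc, noI_sub h c.1 _ hc, add_zero]
    · intro c; positivity
    · rw [Finset.sum_add_distrib, Finset.sum_const, Finset.card_univ, nsmul_eq_mul, card_sub,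
        Fintype.sum_prod_type]
      have h0 : ∀ v : Fin t.nodes, ∑ x : Lit n,
          (if ((v, x) : Fin t.nodes × Lit n).2.1 = i then (7 : ℝ) else 0) = 14 := by
        intro v
        refine (sum_var i 7).trans ?_
        norm_num
      rw [Finset.sum_congr rfl fun v _ => h0 v, Finset.sum_const, Finset.card_univ,
        Fintype.card_fin, nsmul_eq_mul]
      apply le_of_eq
      field_simp
      ring
  · apply ENNReal.ofReal_le_ofReal
    have : (0 : ℝ) < 1 / n := by positivity
    linarith

theorem Ex_psi_none (i : Fin n) :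
    Ex (hvl (none : Ind n)) (fun Y => ENNReal.ofReal (psi i Y)) ≤
      ENNReal.ofReal (20 * psi i none) := by
  classical
  have hn := npos i
  have hn0 : (0 : ℝ) < n := by linarith
  show Ex ((PMF.uniformOfFintype (Lit n)).map fun x : Lit n => some (Tree.leaf x)) _ ≤ _
  rw [Ex_map]
  refine (Ex_uniform_le _ (fun x : Lit n => 1 / (n : ℝ) + if x.1 = i then 7 else 0) ?_ ?_
    (8 * (1 / n)) ?_).trans ?_
  · intro x
    apply ENNReal.ofReal_le_ofReal
    by_cases hc : x.1 = i
    · rw [if_pos hc]
      have := psi_le_seven i (some (Tree.leaf x))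
      have : (0 : ℝ) < 1 / n := by positivity
      linarith
    · rw [if_neg hc, add_zero]
      apply le_of_eq
      apply psi_noI
      intro y hy
      simp only [Tree.leaves, List.mem_singleton] at hy
      rw [hy]; exact hc
  · intro x; positivity
  · rw [Finset.sum_add_distrib, Finset.sum_const, Finset.card_univ, nsmul_eq_mul, sum_var,
      Fintype.card_prod, Fintype.card_fin, Fintype.card_bool]
    push_cast
    apply le_of_eq
    field_simp
    ring
  · apply ENNReal.ofReal_le_ofReal
    have : (0 : ℝ) < 1 / n := by positivity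
    simp only [psi]
    linarith

/-- one application of HVL-Prime increases the expected potential by a factor at most `20` -/
theorem Ex_psi (i : Fin n) (X : Ind n) :
    Ex (hvl X) (fun Y => ENNReal.ofReal (psi i Y)) ≤ ENNReal.ofReal (20 * psi i X) := by
  cases X with
  | none => exact Ex_psi_none i
  | some t =>
    rcases cases3 t.leaves i with h | h | ⟨P, Q, h⟩
    · rw [psi_exp h]
      refine (Ex_le_seven i (some t)).trans (ENNReal.ofReal_le_ofReal (by norm_num))
    · exact Ex_psi_noI h
    · exact Ex_psi_dec h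

theorem Ex_const_mul {α : Type*} (p : PMF α) (c : ℝ≥0∞) (g : α → ℝ≥0∞) :
    Ex p (fun a => c * g a) = c * Ex p g := by
  unfold Ex
  rw [← ENNReal.tsum_mul_left]
  congr 1
  ext a
  ring

theorem Ex_psi_mutate (i : Fin n) (k : ℕ) (X : Ind n) :
    Ex (mutate k X) (fun Y => ENNReal.ofReal (psi i Y)) ≤ ENNReal.ofReal (20 ^ k * psi i X) := by
  induction k generalizing X with
  | zero => rw [mutate, Ex_pure]; simp
  | succ k ih =>
    rw [mutate, Ex_bind]
    calc Ex (hvl X) (fun Y => Ex (mutate k Y) fun Y => ENNReal.ofReal (psi i Y))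
        ≤ Ex (hvl X) (fun Y => ENNReal.ofReal (20 ^ k * psi i Y)) := Ex_mono _ fun Y _ => ih Y
      _ = Ex (hvl X) (fun Y => ENNReal.ofReal (20 ^ k) * ENNReal.ofReal (psi i Y)) := by
          congr 1
          ext Y
          rw [ENNReal.ofReal_mul (by positivity)]
      _ = ENNReal.ofReal (20 ^ k) * Ex (hvl X) (fun Y => ENNReal.ofReal (psi i Y)) :=
          Ex_const_mul _ _ _
      _ ≤ ENNReal.ofReal (20 ^ k) * ENNReal.ofReal (20 * psi i X) := by
          gcongr
          exact Ex_psi i X
      _ = ENNReal.ofReal (20 ^ (k + 1) * psi i X) := by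
          rw [← ENNReal.ofReal_mul (by positivity)]
          congr 1
          ring

end Q231.GPS
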