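import Pool.Agent.Q231.GPS.Iter

namespace Q231.GPS

open Q231.Smo
open scoped ENNReal

variable {n : ℕ}

/-! ### improvement -/

theorem fitL_lt {L L' : List (Lit n)} {i : Fin n} (h : ∀ j, j ≠ i → Expressed L j → Expressed L' j)
    (h1 : ¬ Expressed L i) (h2 : Expressed L' i) : fitL L < fitL L' := by
  apply Finset.card_lt_card
  rw [Finset.ssubset_iff_of_subset]
  · exact ⟨i, by simpa using h2, by simpa using h1⟩
  · intro j hj
    simp only [Finset.mem_filter, Finset.mem_univ, true_and] at hj ⊢
    by_cases hji : j = i
    · rw [hji]; exact h2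
    · exact h j hji hj

/-- the range of good positions for a new leaf `x_i` -/
def rng (L : List (Lit n)) (i : Fin n) : ℕ := if NoI L i then L.length else fi L i

theorem imp_ins (t : Tree n) (i : Fin n) (h : ¬ Expressed t.leaves i) (v : ℕ) (hv : v < t.nodes)
    (b : Bool) (hp : pos t v b ≤ rng t.leaves i) :
    fit (some t) < fit (some (t.ins v (i, true) b)) := by
  show fitL t.leaves < fitL (t.ins v (i, true) b).leaves
  rw [ins_leaves t v hv]
  apply fitL_lt (i := i)
  · intro j hj hE
    rw [expressed_insert_ne _ _ _ j (fun hh => hj hh.symm), List.take_append_drop]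
    exact hE
  · exact h
  · rcases cases3 t.leaves i with h1 | h1 | ⟨P, Q, h1⟩
    · exact absurd h1 h
    · rw [expressed_noI_append (h1.sub fun y hy => List.mem_of_mem_take hy)]
      exact expressed_cons_true _ _
    · rw [rng, if_neg h1.not_noI, h1.fi] at hp
      rw [h1.eq] 
      rcases ins_before (Q := Q) (i, true) (pos t v b) hp h1.no with ⟨_, hE⟩ | ⟨hx, _⟩
      · exact hE
      · exact absurd rfl hx

theorem imp_del (t : Tree n) (i : Fin n) (P Q : List (Lit n)) (h : Dec t.leaves i P Q)
    (hQ : Expressed Q i) : fit (some t) < fit (t.del P.length) := by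
  show fitL t.leaves < fitL (leaves (t.del P.length))
  rw [t.del_leaves _ (by rw [t.size_eq]; exact h.lt)]
  apply fitL_lt (i := i)
  · intro j hj hE
    rw [h.eq] at hE ⊢
    rw [del_at]
    rwa [expressed_insert_ne _ _ _ j (fun hh => hj hh.symm)] at hE
  · exact h.not_expressed
  · rw [h.eq, del_at, expressed_noI_append h.no]
    exact hQ

/-- number of good (node, side) pairs for a new leaf `x_i` -/
def good (t : Tree n) (i : Fin n) : ℕ :=
  if Expressed t.leaves i then 0 else if NoI t.leaves i then 2 * t.nodes else wt t (fi t.leaves i)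

theorem good_le (t : Tree n) (i : Fin n) :
    (good t i : ℝ) ≤ ∑ v : Fin t.nodes,
      ((if fit (some t) < fit (some (t.ins v (i, true) true)) then (1 : ℝ) else 0) +
        if fit (some t) < fit (some (t.ins v (i, true) false)) then (1 : ℝ) else 0) := by
  classical
  by_cases h : Expressed t.leaves i
  · rw [good, if_pos h]
    push_cast
    apply Finset.sum_nonneg
    intro v _
    positivity
  · have key : (∑ v : Fin t.nodes, ((if pos t v true ≤ rng t.leaves i then (1 : ℝ) else 0) +
        if pos t v false ≤ rng t.leaves i then (1 : ℝ) else 0)) ≤ ∑ v : Fin t.nodes,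
      ((if fit (some t) < fit (some (t.ins v (i, true) true)) then (1 : ℝ) else 0) +
        if fit (some t) < fit (some (t.ins v (i, true) false)) then (1 : ℝ) else 0) := by
      apply Finset.sum_le_sum
      intro v _
      apply add_le_add
      · split_ifs with h1 h2 h2
        · exact le_rfl
        · exact absurd (imp_ins t i h v v.2 true h1) h2
        · norm_num
        · exact le_rfl
      · split_ifs with h1 h2 h2
        · exact le_rfl
        · exact absurd (imp_ins t i h v v.2 false h1) h2
        · norm_num
        · exact le_rfl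
    refine le_trans (le_of_eq ?_) key
    have hcast : (∑ v : Fin t.nodes, ((if pos t v true ≤ rng t.leaves i then (1 : ℝ) else 0) +
        if pos t v false ≤ rng t.leaves i then (1 : ℝ) else 0)) = (cnt t (rng t.leaves i) : ℝ) := by
      rw [cnt, Finset.sum_range]
      push_cast
      rfl
    rw [hcast]
    rw [good, if_neg h]
    by_cases h1 : NoI t.leaves i
    · rw [if_pos h1, rng, if_pos h1, cnt]
      congr 1
      have : ∀ v ∈ Finset.range t.nodes, ((if pos t v true ≤ t.leaves.length then 1 else 0) +
          if pos t v false ≤ t.leaves.length then 1 else 0) = 2 := by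
        intro v _
        rw [← t.size_eq, if_pos (pos_le t v true), if_pos (pos_le t v false)]
      rw [Finset.sum_congr rfl this]
      simp; ring
    · rw [if_neg h1, rng, if_neg h1]
      rcases cases3 t.leaves i with h2 | h2 | ⟨P, Q, h2⟩
      · exact absurd h2 h
      · exact absurd h2 h1
      · rw [cnt_eq]
        rw [h2.fi, t.size_eq]; exact h2.lt

/-- variables which become expressed when the first literal is deleted -/
def Dl (t : Tree n) (i : Fin n) : Prop :=
  ¬ Expressed t.leaves i ∧ ¬ NoI t.leaves i ∧ Expressed (t.leaves.drop (fi t.leaves i + 1)) i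

instance (t : Tree n) (i : Fin n) : Decidable (Dl t i) := by unfold Dl; infer_instance

theorem Dl.dec {t : Tree n} {i : Fin n} (h : Dl t i) :
    ∃ P Q, Dec t.leaves i P Q ∧ Expressed Q i := by
  rcases cases3 t.leaves i with h1 | h1 | ⟨P, Q, h1⟩
  · exact absurd h1 h.1
  · exact absurd h1 h.2.1
  · exact ⟨P, Q, h1, by have := h.2.2; rwa [h1.drop] at this⟩

theorem fi_inj {L : List (Lit n)} {i j : Fin n} (hi : ¬ NoI L i) (hj : ¬ NoI L j)
    (h : fi L i = fi L j) : i = j := by
  have h1 : fi L i < L.length := by
    unfold fi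
    rw [List.findIdx_lt_length]
    unfold NoI at hi
    push Not at hi
    obtain ⟨y, hy, hyi⟩ := hi
    exact ⟨y, hy, by simpa using hyi⟩
  have h2 : fi L j < L.length := by rw [← h]; exact h1
  have e1 := List.findIdx_getElem (p := fun y : Lit n => decide (y.1 = i)) (xs := L) (w := h1)
  have e2 := List.findIdx_getElem (p := fun y : Lit n => decide (y.1 = j)) (xs := L) (w := h2)
  simp only [decide_eq_true_eq] at e1 e2
  rw [← e1, ← e2]
  have : L[fi L i] = L[fi L j] := by congr 1
  exact congrArg Prod.fst this

theorem del_card (t : Tree n) :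
    ((Finset.univ.filter (fun i => Dl t i)).card : ℝ) ≤
      ∑ v : Fin t.size, if fit (some t) < fit (t.del v) then (1 : ℝ) else 0 := by
  classical
  rw [← Finset.sum_filter, Finset.sum_const, nsmul_eq_mul, mul_one]
  have hlt : ∀ i : Fin n, Dl t i → fi t.leaves i < t.size := by
    intro i hi
    obtain ⟨P, Q, h1, _⟩ := hi.dec
    rw [h1.fi, t.size_eq]; exact h1.lt
  have : (Finset.univ.filter (fun i => Dl t i)).card ≤
      (Finset.univ.filter (fun v : Fin t.size => fit (some t) < fit (t.del v))).card := by
    apply Finset.card_le_card_of_injOn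
      (fun i => if h : Dl t i then ⟨fi t.leaves i, hlt i h⟩ else ⟨0, t.size_pos⟩)
    · intro i hi
      simp only [Finset.coe_filter, Finset.mem_univ, true_and, Set.mem_ofPred_eq] at hi ⊢
      rw [dif_pos hi]
      obtain ⟨P, Q, h1, h2⟩ := hi.dec
      show fit (some t) < fit (t.del (fi t.leaves i))
      rw [h1.fi]
      exact imp_del t i P Q h1 h2
    · intro i hi j hj hij
      simp only [Finset.coe_filter, Finset.mem_univ, true_and, Set.mem_ofPred_eq] at hi hj
      simp only [dif_pos hi, dif_pos hj, Fin.mk.injEq] at hij
      exact fi_inj hi.2.1 hj.2.1 hij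
  exact_mod_cast this

/-- lower bound of the improvement probability, one summand per variable -/
noncomputable def kap (i : Fin n) (t : Tree n) : ℝ :=
  (good t i : ℝ) / (12 * n * t.nodes) + if Dl t i then 1 / (3 * (t.size : ℝ)) else 0

theorem kap_nonneg (i : Fin n) (t : Tree n) : 0 ≤ kap i t := by
  unfold kap; positivity

/-- the indicator of an improvement -/
noncomputable def imp (X Y : Ind n) : ℝ≥0∞ := if fit X < fit Y then 1 else 0

theorem Ex_uniform_ge {α : Type*} [Fintype α] [Nonempty α] (φ : α → ℝ≥0∞) (r : α → ℝ)
    (h : ∀ a, ENNReal.ofReal (r a) ≤ φ a) (h0 : ∀ a, 0 ≤ r a) (R : ℝ)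
    (hR : Fintype.card α * R ≤ ∑ a, r a) :
    ENNReal.ofReal R ≤ Ex (PMF.uniformOfFintype α) φ := by
  have hc : (0 : ℝ) < Fintype.card α := by exact_mod_cast Fintype.card_pos
  unfold Ex
  rw [tsum_fintype]
  simp only [PMF.uniformOfFintype_apply]
  calc ENNReal.ofReal R ≤ ENNReal.ofReal (∑ a, (Fintype.card α : ℝ)⁻¹ * r a) := by
        apply ENNReal.ofReal_le_ofReal
        rw [← Finset.mul_sum]
        calc R = (Fintype.card α : ℝ)⁻¹ * (Fintype.card α * R) := by field_simp
          _ ≤ (Fintype.card α : ℝ)⁻¹ * ∑ a, r a := mul_le_mul_of_nonneg_left hR (by positivity)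
    _ = ∑ a, ENNReal.ofReal ((Fintype.card α : ℝ)⁻¹ * r a) := by
        rw [ENNReal.ofReal_sum_of_nonneg]
        intro a _
        exact mul_nonneg (by positivity) (h0 a)
    _ = ∑ a, ((Fintype.card α : ℝ≥0∞))⁻¹ * ENNReal.ofReal (r a) := by
        apply Finset.sum_congr rfl
        intro a _
        rw [ENNReal.ofReal_mul (by positivity), ENNReal.ofReal_inv_of_pos hc,
          ENNReal.ofReal_natCast]
    _ ≤ ∑ a, ((Fintype.card α : ℝ≥0∞))⁻¹ * φ a :=
        Finset.sum_le_sum fun a _ => mul_le_mul_right (h a) _

theorem ofReal_ite (p : Prop) [Decidable p] :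
    ENNReal.ofReal (if p then (1 : ℝ) else 0) = if p then (1 : ℝ≥0∞) else 0 := by
  split_ifs <;> simp

variable [NeZero n]

theorem Ex_hvl_ge (t : Tree n) (φ : Ind n → ℝ≥0∞) (R1 R2 : ℝ) (h1' : 0 ≤ R1) (h2' : 0 ≤ R2)
    (h1 : ENNReal.ofReal R1 ≤ Ex (PMF.uniformOfFintype (Fin t.nodes × Lit n × Bool))
      (fun c => φ (some (t.ins c.1 c.2.1 c.2.2))))
    (h2 : ENNReal.ofReal R2 ≤ Ex (PMF.uniformOfFintype (Fin t.size)) (fun v => φ (t.del v))) :
    ENNReal.ofReal ((R1 + R2) / 3) ≤ Ex (hvl (some t)) φ := by
  rw [hvl, Ex_bind]
  refine Ex_uniform_ge _ (fun o => match o with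
    | Op.INS => R1
    | Op.DEL => R2
    | Op.SUB => 0) ?_ ?_ _ ?_
  · intro o
    cases o with
    | INS => simp only; rw [Ex_map]; exact h1
    | DEL => simp only; rw [Ex_map]; exact h2
    | SUB => simp
  · intro o
    cases o <;> simp only <;> first | assumption | exact le_rfl
  · rw [sum_op, card_op]
    simp only
    push_cast
    linarith

/-- the improvement probability of one application is at least the sum of the `kap i t` -/
theorem kap_le (t : Tree n) :
    ENNReal.ofReal (∑ i, kap i t) ≤ Ex (hvl (some t)) (imp (some t)) := by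
  classical
  have hN0 : (0 : ℝ) < t.nodes := by exact_mod_cast t.nodes_pos
  have hT0 : (0 : ℝ) < t.size := by exact_mod_cast t.size_pos
  have hn0 : (0 : ℝ) < n := by exact_mod_cast Nat.pos_of_ne_zero (NeZero.ne n)
  have h := Ex_hvl_ge t (imp (some t)) ((∑ i, (good t i : ℝ)) / (4 * n * t.nodes))
    (((Finset.univ.filter (fun i => Dl t i)).card : ℝ) / t.size) (by positivity) (by positivity)
    ?_ ?_
  · refine le_trans (le_of_eq ?_) h
    congr 1
    unfold kap
    rw [Finset.sum_add_distrib, ← Finset.sum_div, ← Finset.sum_filter, Finset.sum_const,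
      nsmul_eq_mul]
    field_simp
    ring
  · refine Ex_uniform_ge _ (fun c : Fin t.nodes × Lit n × Bool =>
      if fit (some t) < fit (some (t.ins c.1 c.2.1 c.2.2)) then (1 : ℝ) else 0) ?_ ?_ _ ?_
    · intro c
      rw [ofReal_ite]
      exact le_rfl
    · intro c; positivity
    · rw [card_ins, mul_div_cancel₀ _ (by positivity)]
      calc ∑ i, (good t i : ℝ) ≤ ∑ i : Fin n, ∑ v : Fin t.nodes,
            ((if fit (some t) < fit (some (t.ins v (i, true) true)) then (1 : ℝ) else 0) +
            if fit (some t) < fit (some (t.ins v (i, true) false)) then (1 : ℝ) else 0) :=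
            Finset.sum_le_sum fun i _ => good_le t i
        _ = ∑ v : Fin t.nodes, ∑ i : Fin n,
            ((if fit (some t) < fit (some (t.ins v (i, true) true)) then (1 : ℝ) else 0) +
            if fit (some t) < fit (some (t.ins v (i, true) false)) then (1 : ℝ) else 0) :=
            Finset.sum_comm
        _ ≤ _ := by
            rw [Fintype.sum_prod_type]
            apply Finset.sum_le_sum
            intro v _
            rw [Fintype.sum_prod_type, Fintype.sum_prod_type]
            apply Finset.sum_le_sum
            intro i _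
            rw [Fintype.sum_bool, Fintype.sum_bool, Fintype.sum_bool]
            show (if fit (some t) < fit (some (t.ins v (i, true) true)) then (1 : ℝ) else 0) +
              (if fit (some t) < fit (some (t.ins v (i, true) false)) then (1 : ℝ) else 0) ≤
              ((if fit (some t) < fit (some (t.ins v (i, true) true)) then (1 : ℝ) else 0) +
              (if fit (some t) < fit (some (t.ins v (i, true) false)) then (1 : ℝ) else 0)) +
              ((if fit (some t) < fit (some (t.ins v (i, false) true)) then (1 : ℝ) else 0) +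
              (if fit (some t) < fit (some (t.ins v (i, false) false)) then (1 : ℝ) else 0))
            have : (0 : ℝ) ≤
              ((if fit (some t) < fit (some (t.ins v (i, false) true)) then (1 : ℝ) else 0) +
              (if fit (some t) < fit (some (t.ins v (i, false) false)) then (1 : ℝ) else 0)) := by
              positivity
            linarith
  · refine Ex_uniform_ge _ (fun v : Fin t.size =>
      if fit (some t) < fit (t.del v) then (1 : ℝ) else 0) ?_ ?_ _ ?_
    · intro v
      rw [ofReal_ite]
      exact le_rfl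
    · intro v; positivity
    · rw [Fintype.card_fin, mul_div_cancel₀ _ (by positivity)]
      exact del_card t

end Q231.GPS
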