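import Pool.Agent.Q231.GPS.Shape

namespace Q231.GPS

open Q231.Smo

variable {n : ℕ}

/-- no literal of variable `i` occurs -/
def NoI (L : List (Lit n)) (i : Fin n) : Prop := ∀ y ∈ L, y.1 ≠ i

instance (L : List (Lit n)) (i : Fin n) : Decidable (NoI L i) := by unfold NoI; infer_instance

/-- index of the first literal of variable `i` -/
def fi (L : List (Lit n)) (i : Fin n) : ℕ := L.findIdx (fun y => y.1 = i)

/-- `L = P ++ (i, false) :: Q` and variable `i` does not occur in `P` -/
structure Dec (L : List (Lit n)) (i : Fin n) (P Q : List (Lit n)) : Prop where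
  eq : L = P ++ (i, false) :: Q
  no : NoI P i

theorem NoI.append {P Q : List (Lit n)} {i : Fin n} (h1 : NoI P i) (h2 : NoI Q i) :
    NoI (P ++ Q) i := by
  intro y hy
  rcases List.mem_append.1 hy with h | h
  · exact h1 y h
  · exact h2 y h

theorem NoI.cons {P : List (Lit n)} {i : Fin n} {x : Lit n} (h1 : NoI P i) (h2 : x.1 ≠ i) :
    NoI (x :: P) i := by
  intro y hy
  rcases List.mem_cons.1 hy with h | h
  · rw [h]; exact h2
  · exact h1 y h

theorem NoI.sub {P Q : List (Lit n)} {i : Fin n} (h1 : NoI P i) (h2 : ∀ y ∈ Q, y ∈ P) :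
    NoI Q i := fun y hy => h1 y (h2 y hy)

theorem expressed_noI_append {P Q : List (Lit n)} {i : Fin n} (h : NoI P i) :
    Expressed (P ++ Q) i ↔ Expressed Q i := by
  unfold Expressed
  rw [List.find?_append]
  have : P.find? (fun x => x.1 = i) = none := by
    rw [List.find?_eq_none]
    intro x hx
    simpa using h x hx
  rw [this]; rfl

theorem not_expressed_noI {P : List (Lit n)} {i : Fin n} (h : NoI P i) : ¬ Expressed P i :=
  fun hc => h _ (expressed_mem hc) rfl

theorem expressed_cons_true (Q : List (Lit n)) (i : Fin n) : Expressed ((i, true) :: Q) i := by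
  unfold Expressed; simp

theorem not_expressed_cons_false (Q : List (Lit n)) (i : Fin n) :
    ¬ Expressed ((i, false) :: Q) i := by
  unfold Expressed; simp

theorem expressed_cons_ne (x : Lit n) (Q : List (Lit n)) (i : Fin n) (h : x.1 ≠ i) :
    Expressed (x :: Q) i ↔ Expressed Q i := by
  have := expressed_insert_ne [] Q x i h
  simpa using this

theorem Dec.not_expressed {L P Q : List (Lit n)} {i : Fin n} (h : Dec L i P Q) :
    ¬ Expressed L i := by
  rw [h.eq, expressed_noI_append h.no]
  exact not_expressed_cons_false Q i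

theorem Dec.not_noI {L P Q : List (Lit n)} {i : Fin n} (h : Dec L i P Q) : ¬ NoI L i := by
  intro hc
  exact hc (i, false) (by rw [h.eq]; simp) rfl

theorem Dec.fi {L P Q : List (Lit n)} {i : Fin n} (h : Dec L i P Q) : fi L i = P.length := by
  unfold GPS.fi
  rw [h.eq, List.findIdx_append]
  have h1 : P.findIdx (fun y => y.1 = i) = P.length := by
    rw [List.findIdx_eq_length]
    intro x hx
    simpa using h.no x hx
  rw [h1]
  simp [List.findIdx_cons]

theorem Dec.drop {L P Q : List (Lit n)} {i : Fin n} (h : Dec L i P Q) :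
    L.drop (GPS.fi L i + 1) = Q := by
  rw [h.fi, h.eq]
  simp

theorem Dec.lt {L P Q : List (Lit n)} {i : Fin n} (h : Dec L i P Q) : P.length < L.length := by
  rw [h.eq]; simp

/-- trichotomy -/
theorem cases3 (L : List (Lit n)) (i : Fin n) :
    Expressed L i ∨ NoI L i ∨ ∃ P Q, Dec L i P Q := by
  induction L with
  | nil => right; left; intro y hy; simp at hy
  | cons x L ih =>
    by_cases h : x.1 = i
    · obtain ⟨j, b⟩ := x
      simp only at h
      subst h
      cases b
      · right; right
        exact ⟨[], L, rfl, by intro y hy; simp at hy⟩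
      · left; exact expressed_cons_true L j
    · rcases ih with h1 | h1 | ⟨P, Q, h1⟩
      · left; rwa [expressed_cons_ne x L i h]
      · right; left; exact h1.cons h
      · right; right
        exact ⟨x :: P, Q, by rw [h1.eq]; rfl, h1.no.cons h⟩

/-! ### insertion -/

/-- insertion before the marked literal -/
theorem ins_before {P Q : List (Lit n)} {i : Fin n} (x : Lit n) (p : ℕ) (hp : p ≤ P.length)
    (h : NoI P i) :
    (x = (i, true) ∧ Expressed ((P ++ (i, false) :: Q).take p ++ x :: (P ++ (i, false) :: Q).drop p) i) ∨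
    (x ≠ (i, true) ∧ ∃ P' Q',
      Dec ((P ++ (i, false) :: Q).take p ++ x :: (P ++ (i, false) :: Q).drop p) i P' Q' ∧
      P'.length ≤ P.length + 1 ∧ (Expressed Q' i → Expressed Q i)) := by
  rw [List.take_append_of_le_length hp, List.drop_append_of_le_length hp]
  have h1 : NoI (P.take p) i := h.sub fun y hy => List.mem_of_mem_take hy
  have h2 : NoI (P.drop p) i := h.sub fun y hy => List.mem_of_mem_drop hy
  by_cases hx : x = (i, true)
  · left
    refine ⟨hx, ?_⟩
    rw [expressed_noI_append h1, hx]
    exact expressed_cons_true _ _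
  · right
    refine ⟨hx, ?_⟩
    by_cases hxi : x.1 = i
    · have hx2 : x = (i, false) := by
        obtain ⟨j, b⟩ := x
        simp only at hxi
        subst hxi
        cases b
        · rfl
        · exact absurd rfl hx
      refine ⟨P.take p, P.drop p ++ (i, false) :: Q, ⟨by rw [hx2], h1⟩, ?_, ?_⟩
      · simp
      · intro hc
        rw [expressed_noI_append h2] at hc
        exact absurd hc (not_expressed_cons_false Q i)
    · refine ⟨P.take p ++ x :: P.drop p, Q, ⟨by simp, h1.append (h2.cons hxi)⟩, ?_, id⟩
      simp; omega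

/-- insertion after the marked literal -/
theorem ins_after {P Q : List (Lit n)} {i : Fin n} (x : Lit n) (p : ℕ) (hp : P.length < p)
    (h : NoI P i) :
    ∃ Q', Dec ((P ++ (i, false) :: Q).take p ++ x :: (P ++ (i, false) :: Q).drop p) i P Q' ∧
      (x ≠ (i, true) → Expressed Q' i → Expressed Q i) := by
  obtain ⟨k, rfl⟩ := Nat.exists_eq_add_of_lt hp
  have e1 : (P ++ (i, false) :: Q).take (P.length + k + 1) = P ++ (i, false) :: Q.take k := by
    rw [List.take_append, List.take_of_length_le (by omega)]
    have : P.length + k + 1 - P.length = k + 1 := by omega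
    rw [this, List.take_succ_cons]
  have e2 : (P ++ (i, false) :: Q).drop (P.length + k + 1) = Q.drop k := by
    rw [List.drop_append, List.drop_of_length_le (by omega)]
    have : P.length + k + 1 - P.length = k + 1 := by omega
    rw [this, List.drop_succ_cons, List.nil_append]
  rw [e1, e2]
  refine ⟨Q.take k ++ x :: Q.drop k, ⟨by simp, h⟩, ?_⟩
  intro hx hE
  by_cases hxi : x.1 = i
  · have hx2 : x = (i, false) := by
      obtain ⟨j, b⟩ := x
      simp only at hxi
      subst hxi
      cases b
      · rfl
      · exact absurd rfl hx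
    subst hx2
    rcases cases3 (Q.take k) i with h1 | h1 | ⟨P1, Q1, h1⟩
    · rw [← List.take_append_drop k Q]
      unfold Expressed at h1 ⊢
      rw [List.find?_append, h1]; rfl
    · rw [expressed_noI_append h1] at hE
      exact absurd hE (not_expressed_cons_false _ _)
    · rw [h1.eq] at hE
      rw [List.append_assoc, expressed_noI_append h1.no] at hE
      exact absurd hE (not_expressed_cons_false _ _)
  · rw [expressed_insert_ne _ _ x i hxi, List.take_append_drop] at hE
    exact hE

/-! ### deletion -/

theorem del_before {P Q : List (Lit n)} {i : Fin n} (v : ℕ) (hv : v < P.length) (h : NoI P i) :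
    Dec ((P ++ (i, false) :: Q).eraseIdx v) i (P.eraseIdx v) Q := by
  rw [List.eraseIdx_append_of_lt_length hv]
  exact ⟨rfl, h.sub fun y hy => List.mem_of_mem_eraseIdx hy⟩

theorem del_at {P Q : List (Lit n)} {i : Fin n} :
    (P ++ (i, false) :: Q).eraseIdx P.length = P ++ Q := by
  rw [List.eraseIdx_append_of_length_le le_rfl]; simp

/-- the list has status `neg` or `none` -/
theorem erase_expressed {Q : List (Lit n)} {i : Fin n} (k : ℕ) (h : ¬ Expressed Q i)
    (hE : Expressed (Q.eraseIdx k) i) : k = fi Q i := by
  rcases cases3 Q i with h1 | h1 | ⟨P1, Q1, h1⟩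
  · exact absurd h1 h
  · exact absurd hE (not_expressed_noI (h1.sub fun y hy => List.mem_of_mem_eraseIdx hy))
  · rw [h1.fi]
    by_contra hne
    rcases lt_or_gt_of_ne hne with hk | hk
    · rw [h1.eq] at hE
      exact (del_before k hk h1.no).not_expressed hE
    · rw [h1.eq, List.eraseIdx_append_of_length_le hk.le] at hE
      have : k - P1.length = (k - P1.length - 1) + 1 := by omega
      rw [this, List.eraseIdx_cons_succ, expressed_noI_append h1.no] at hE
      exact not_expressed_cons_false _ _ hE

theorem del_after {P Q : List (Lit n)} {i : Fin n} (v : ℕ) (hv : P.length < v) (h : NoI P i) :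
    ∃ Q', Dec ((P ++ (i, false) :: Q).eraseIdx v) i P Q' ∧
      (Expressed Q' i → Expressed Q i ∨ v = P.length + 1 + fi Q i) := by
  obtain ⟨k, rfl⟩ := Nat.exists_eq_add_of_lt hv
  refine ⟨Q.eraseIdx k, ⟨?_, h⟩, ?_⟩
  · rw [List.eraseIdx_append_of_length_le (by omega)]
    have : P.length + k + 1 - P.length = k + 1 := by omega
    rw [this, List.eraseIdx_cons_succ]
  · intro hE
    by_cases hQ : Expressed Q i
    · exact Or.inl hQ
    · right
      have := erase_expressed k hQ hE
      omega

/-! ### substitution -/

theorem set_before {P Q : List (Lit n)} {i : Fin n} (v : ℕ) (hv : v < P.length) (x : Lit n)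
    (h : NoI P i) :
    (x = (i, true) ∧ Expressed ((P ++ (i, false) :: Q).set v x) i) ∨
    (x ≠ (i, true) ∧ ∃ P' Q', Dec ((P ++ (i, false) :: Q).set v x) i P' Q' ∧
      P'.length ≤ P.length ∧ (Expressed Q' i → Expressed Q i)) := by
  have e : (P ++ (i, false) :: Q).set v x =
      P.take v ++ x :: (P.drop (v + 1) ++ (i, false) :: Q) := by
    rw [List.set_append_left _ _ hv, List.set_eq_take_append_cons_drop, if_pos hv]
    simp
  have h1 : NoI (P.take v) i := h.sub fun y hy => List.mem_of_mem_take hy
  have h2 : NoI (P.drop (v + 1)) i := h.sub fun y hy => List.mem_of_mem_drop hy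
  rw [e]
  by_cases hx : x = (i, true)
  · left
    refine ⟨hx, ?_⟩
    rw [expressed_noI_append h1, hx]
    exact expressed_cons_true _ _
  · right
    refine ⟨hx, ?_⟩
    by_cases hxi : x.1 = i
    · have hx2 : x = (i, false) := by
        obtain ⟨j, b⟩ := x
        simp only at hxi
        subst hxi
        cases b
        · rfl
        · exact absurd rfl hx
      refine ⟨P.take v, P.drop (v + 1) ++ (i, false) :: Q, ⟨by rw [hx2], h1⟩, ?_, ?_⟩
      · simp
      · intro hc
        rw [expressed_noI_append h2] at hc
        exact absurd hc (not_expressed_cons_false Q i)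
    · refine ⟨P.take v ++ x :: P.drop (v + 1), Q, ⟨by simp, h1.append (h2.cons hxi)⟩, ?_, id⟩
      simp; omega

theorem set_at {P Q : List (Lit n)} {i : Fin n} (x : Lit n) :
    (P ++ (i, false) :: Q).set P.length x = P ++ x :: Q := by
  rw [List.set_append_right _ _ le_rfl]; simp

theorem set_expressed {Q : List (Lit n)} {i : Fin n} (k : ℕ) (x : Lit n) (h : ¬ Expressed Q i)
    (hx : x ≠ (i, true)) (hE : Expressed (Q.set k x) i) : k = fi Q i := by
  have hmem : (i, true) ∈ Q := by
    rcases List.mem_or_eq_of_mem_set (expressed_mem hE) with h1 | h1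
    · exact h1
    · exact absurd h1.symm hx
  rcases cases3 Q i with h1 | h1 | ⟨P1, Q1, h1⟩
  · exact absurd h1 h
  · exact absurd rfl (h1 _ hmem)
  · rw [h1.fi]
    by_contra hne
    rcases lt_or_gt_of_ne hne with hk | hk
    · rw [h1.eq] at hE
      rcases set_before (Q := Q1) k hk x h1.no with h2 | ⟨_, P', Q', h2, _⟩
      · exact hx h2.1
      · exact h2.not_expressed hE
    · rw [h1.eq, List.set_append_right _ _ hk.le] at hE
      have : k - P1.length = (k - P1.length - 1) + 1 := by omega
      rw [this, List.set_cons_succ, expressed_noI_append h1.no] at hE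
      exact not_expressed_cons_false _ _ hE

theorem set_after {P Q : List (Lit n)} {i : Fin n} (v : ℕ) (hv : P.length < v) (x : Lit n)
    (h : NoI P i) :
    ∃ Q', Dec ((P ++ (i, false) :: Q).set v x) i P Q' ∧
      (x ≠ (i, true) → Expressed Q' i → Expressed Q i ∨ v = P.length + 1 + fi Q i) := by
  obtain ⟨k, rfl⟩ := Nat.exists_eq_add_of_lt hv
  refine ⟨Q.set k x, ⟨?_, h⟩, ?_⟩
  · rw [List.set_append_right _ _ (by omega)]
    have : P.length + k + 1 - P.length = k + 1 := by omega
    rw [this, List.set_cons_succ]
  · intro hx hE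
    by_cases hQ : Expressed Q i
    · exact Or.inl hQ
    · right
      have := set_expressed k x hQ hx hE
      omega

end Q231.GPS
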