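import Pool.Agent.Q231.GPS.Lst

namespace Q231.GPS

open Q231.Smo

variable {n : ℕ}

/-- the potential of the variable `i` -/
noncomputable def psi (i : Fin n) : Ind n → ℝ
  | none => 1 / n
  | some t => if Expressed t.leaves i then 1 else if NoI t.leaves i then 1 / n else
      (wt t (fi t.leaves i) : ℝ) / (n * t.size) +
        (if Expressed (t.leaves.drop (fi t.leaves i + 1)) i then 1 / (t.size : ℝ) else 0) +
        1 / (t.size : ℝ) ^ 2

theorem psi_exp {i : Fin n} {t : Tree n} (h : Expressed t.leaves i) : psi i (some t) = 1 := by
  simp [psi, h]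

theorem psi_noI {i : Fin n} {t : Tree n} (h : NoI t.leaves i) : psi i (some t) = 1 / n := by
  have := not_expressed_noI h
  simp [psi, h, this]

theorem psi_dec {i : Fin n} {t : Tree n} {P Q : List (Lit n)} (h : Dec t.leaves i P Q) :
    psi i (some t) = (wt t P.length : ℝ) / (n * t.size) +
        (if Expressed Q i then 1 / (t.size : ℝ) else 0) + 1 / (t.size : ℝ) ^ 2 := by
  have h1 := h.not_expressed
  have h2 := h.not_noI
  simp only [psi, h1, h2, if_false, h.drop]
  rw [h.fi]

theorem npos (i : Fin n) : (1 : ℝ) ≤ n := by
  have := i.pos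
  exact_mod_cast this

theorem psi_nonneg (i : Fin n) (X : Ind n) : 0 ≤ psi i X := by
  cases X with
  | none => simp [psi]
  | some t =>
    simp only [psi]
    split_ifs <;> positivity

/-- bound in terms of the size only -/
theorem psi_le_size (i : Fin n) (t : Tree n) :
    psi i (some t) ≤ (if Expressed t.leaves i then 1 else 0) + 4 / n + 2 / t.size := by
  have hn := npos i
  have hT : (1 : ℝ) ≤ t.size := by exact_mod_cast t.size_pos
  have hn0 : (0 : ℝ) < n := by linarith
  have hT0 : (0 : ℝ) < t.size := by linarith
  rcases cases3 t.leaves i with h | h | ⟨P, Q, h⟩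
  · rw [psi_exp h, if_pos h]
    have : (0 : ℝ) ≤ 4 / n + 2 / t.size := by positivity
    linarith
  · rw [psi_noI h, if_neg (not_expressed_noI h)]
    have h1 : (1 : ℝ) / n ≤ 4 / n := by gcongr; norm_num
    have : (0 : ℝ) ≤ 2 / t.size := by positivity
    linarith
  · rw [psi_dec h, if_neg h.not_expressed]
    have h1 : (wt t P.length : ℝ) / (n * t.size) ≤ 4 / n := by
      have := wt_le t P.length
      have h2 := nodes_eq t
      have h3 : (wt t P.length : ℝ) ≤ 4 * t.size := by
        have : wt t P.length ≤ 4 * t.size := by omega
        exact_mod_cast this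
      rw [div_le_div_iff₀ (by positivity) hn0]
      nlinarith
    have h2 : (if Expressed Q i then 1 / (t.size : ℝ) else 0) ≤ 1 / t.size := by
      split_ifs
      · exact le_rfl
      · positivity
    have h3 : 1 / (t.size : ℝ) ^ 2 ≤ 1 / t.size := by
      apply one_div_le_one_div_of_le hT0
      nlinarith
    have h4 : (2 : ℝ) / t.size = 1 / t.size + 1 / t.size := by ring
    linarith

theorem psi_le_seven (i : Fin n) (X : Ind n) : psi i X ≤ 7 := by
  have hn := npos i
  cases X with
  | none =>
    simp only [psi]
    rw [div_le_iff₀ (by linarith)]; linarith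
  | some t =>
    refine (psi_le_size i t).trans ?_
    have hT : (1 : ℝ) ≤ t.size := by exact_mod_cast t.size_pos
    have h1 : (4 : ℝ) / n ≤ 4 := by rw [div_le_iff₀ (by linarith)]; linarith
    have h2 : (2 : ℝ) / t.size ≤ 2 := by rw [div_le_iff₀ (by linarith)]; linarith
    have h3 : (if Expressed t.leaves i then (1 : ℝ) else 0) ≤ 1 := by split_ifs <;> norm_num
    linarith

section neg

variable {i : Fin n} {t : Tree n} {P Q : List (Lit n)}

/-- the three parts of the potential -/
noncomputable def pA (t : Tree n) (P : List (Lit n)) : ℝ := (wt t P.length : ℝ) / (n * t.size)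
noncomputable def pB (t : Tree n) (i : Fin n) (Q : List (Lit n)) : ℝ :=
  if Expressed Q i then 1 / (t.size : ℝ) else 0
noncomputable def pC (t : Tree n) : ℝ := 1 / (t.size : ℝ) ^ 2

theorem psi_ins_le (h : Dec t.leaves i P Q) (v : ℕ) (hv : v < t.nodes) (x : Lit n) (b : Bool) :
    psi i (some (t.ins v x b)) ≤ (5 * pA t P + pB t i Q + pC t) +
      (if x = (i, true) ∧ pos t v b ≤ P.length then 1 else 0) +
      (if x = (i, true) then 1 / (t.size : ℝ) else 0) := by
  have hn := npos i
  have hT : (1 : ℝ) ≤ t.size := by exact_mod_cast t.size_pos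
  have hn0 : (0 : ℝ) < n := by linarith
  have hT0 : (0 : ℝ) < t.size := by linarith
  have hA : 0 ≤ pA t P := by unfold pA; positivity
  have hB : 0 ≤ pB t i Q := by unfold pB; split_ifs <;> positivity
  have hC : 0 ≤ pC t := by unfold pC; positivity
  have hL := ins_leaves t v hv x b
  rw [h.eq] at hL
  have hsz : ((t.ins v x b).size : ℝ) = t.size + 1 := by
    have := size_ins t v hv x b
    exact_mod_cast this
  have hwt := wt_ins t v hv x b P.length (by rw [t.size_eq]; exact h.lt)
  have hwp := wt_pos t P.length
  have key : ∀ k : ℕ, wt (t.ins v x b) k ≤ wt t P.length + 4 →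
      (wt (t.ins v x b) k : ℝ) / (n * (t.ins v x b).size) ≤ 5 * pA t P := by
    intro k hk
    have hk' : (wt (t.ins v x b) k : ℝ) ≤ 5 * wt t P.length := by
      have : wt (t.ins v x b) k ≤ 5 * wt t P.length := by omega
      exact_mod_cast this
    unfold pA
    rw [← mul_div_assoc, hsz]
    apply div_le_div₀ (by positivity) hk' (by positivity)
    nlinarith
  have hC' : 1 / ((t.ins v x b).size : ℝ) ^ 2 ≤ pC t := by
    unfold pC
    rw [hsz]
    apply one_div_le_one_div_of_le (by positivity)
    nlinarith
  have hB1 : 1 / ((t.ins v x b).size : ℝ) ≤ 1 / t.size := by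
    rw [hsz]
    apply one_div_le_one_div_of_le (by positivity)
    linarith
  have hs2 : (0 : ℝ) ≤ if x = (i, true) then 1 / (t.size : ℝ) else 0 := by
    split_ifs <;> positivity
  by_cases hp : pos t v b ≤ P.length
  · rw [if_pos hp] at hwt
    rcases ins_before (Q := Q) x (pos t v b) hp h.no with ⟨hx, hE⟩ | ⟨hx, P', Q', hD, hPl, hQ⟩
    · rw [← hL] at hE
      rw [psi_exp hE, if_pos ⟨hx, hp⟩]
      linarith
    · rw [← hL] at hD
      rw [psi_dec hD, if_neg (show ¬ (x = (i, true) ∧ pos t v b ≤ P.length) by tauto), if_neg hx]
      have h1 := key P'.length ((wt_mono _ _ _ hPl).trans hwt)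
      have h2 : (if Expressed Q' i then 1 / ((t.ins v x b).size : ℝ) else 0) ≤ pB t i Q := by
        unfold pB
        by_cases hq : Expressed Q' i
        · rw [if_pos hq, if_pos (hQ hq)]; exact hB1
        · rw [if_neg hq]; exact hB
      linarith
  · rw [if_neg hp] at hwt
    obtain ⟨Q', hD, hQ⟩ := ins_after (Q := Q) x (pos t v b) (not_le.1 hp) h.no
    rw [← hL] at hD
    rw [psi_dec hD, if_neg (show ¬ (x = (i, true) ∧ pos t v b ≤ P.length) by tauto)]
    have h1 := key P.length hwt
    by_cases hx : x = (i, true)
    · rw [if_pos hx]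
      have h2 : (if Expressed Q' i then 1 / ((t.ins v x b).size : ℝ) else 0) ≤ 1 / t.size := by
        split_ifs
        · exact hB1
        · positivity
      linarith
    · rw [if_neg hx]
      have h2 : (if Expressed Q' i then 1 / ((t.ins v x b).size : ℝ) else 0) ≤ pB t i Q := by
        unfold pB
        by_cases hq : Expressed Q' i
        · rw [if_pos hq, if_pos (hQ hx hq)]; exact hB1
        · rw [if_neg hq]; exact hB
      linarith

theorem psi_del_le (h : Dec t.leaves i P Q) (v : ℕ) (hv : v < t.size) :
    psi i (t.del v) ≤ (2 * pA t P + 2 * pB t i Q + 4 * pC t) +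
      (if v = P.length then (if Expressed Q i then 1 else 0) + 4 / n + 4 / (t.size : ℝ) else 0) +
      (if v = P.length + 1 + fi Q i then 2 / (t.size : ℝ) else 0) := by
  have hn := npos i
  have hT : (1 : ℝ) ≤ t.size := by exact_mod_cast t.size_pos
  have hn0 : (0 : ℝ) < n := by linarith
  have hT0 : (0 : ℝ) < t.size := by linarith
  have hA : 0 ≤ pA t P := by unfold pA; positivity
  have hB : 0 ≤ pB t i Q := by unfold pB; split_ifs <;> positivity
  have hC : 0 ≤ pC t := by unfold pC; positivity
  have hI : (0 : ℝ) ≤ if Expressed Q i then 1 else 0 := by split_ifs <;> norm_num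
  have hPT : P.length < t.size := by rw [t.size_eq]; exact h.lt
  have hs2 : (0 : ℝ) ≤ if v = P.length + 1 + fi Q i then 2 / (t.size : ℝ) else 0 := by
    split_ifs <;> positivity
  have hL := t.del_leaves v hv
  rw [h.eq] at hL
  cases hd : t.del v with
  | none =>
    have h1 := del_none t v hv hd
    have hv0 : v = P.length := by omega
    rw [if_pos hv0]
    simp only [psi]
    have h2 : (1 : ℝ) / n ≤ 4 / n := by gcongr; norm_num
    have h3 : (0 : ℝ) ≤ 4 / t.size := by positivity
    linarith
  | some t' =>
    have hsz := size_del t v hv t' hd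
    have hT2 : 2 ≤ t.size := by have := t'.size_pos; omega
    have hsz' : (t'.size : ℝ) = t.size - 1 := by
      have : (t'.size : ℝ) + 1 = t.size := by exact_mod_cast hsz
      linarith
    have hT2' : (2 : ℝ) ≤ t.size := by exact_mod_cast hT2
    have hhalf : (t.size : ℝ) / 2 ≤ t'.size := by rw [hsz']; linarith
    have hT'0 : (0 : ℝ) < t'.size := by linarith
    rw [hd] at hL
    have hL' : t'.leaves = (P ++ (i, false) :: Q).eraseIdx v := hL
    have hB1 : 1 / (t'.size : ℝ) ≤ 2 / t.size := by
      rw [div_le_div_iff₀ hT'0 hT0]; linarith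
    have hC' : 1 / (t'.size : ℝ) ^ 2 ≤ 4 * pC t := by
      unfold pC
      rw [mul_one_div, div_le_div_iff₀ (by positivity) (by positivity)]
      nlinarith
    have key : ∀ k : ℕ, wt t' k ≤ wt t P.length →
        (wt t' k : ℝ) / (n * t'.size) ≤ 2 * pA t P := by
      intro k hk
      have hk' : (wt t' k : ℝ) ≤ wt t P.length := by exact_mod_cast hk
      unfold pA
      rw [← mul_div_assoc, div_le_div_iff₀ (by positivity) (by positivity)]
      have h5 : (0 : ℝ) ≤ wt t P.length := by positivity
      calc (wt t' k : ℝ) * (n * t.size) ≤ wt t P.length * (n * t.size) := by gcongr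
        _ ≤ wt t P.length * (n * (2 * t'.size)) := by gcongr; linarith
        _ = 2 * wt t P.length * (n * t'.size) := by ring
    rcases lt_trichotomy v P.length with hvP | hvP | hvP
    · have hD := del_before (Q := Q) v hvP h.no
      rw [← hL'] at hD
      rw [psi_dec hD, if_neg hvP.ne]
      have hw := wt_del t v hv t' hd P.length hPT hvP.ne
      rw [if_pos hvP] at hw
      have hlen : (P.eraseIdx v).length = P.length - 1 := by
        rw [List.length_eraseIdx, if_pos hvP]
      rw [hlen]
      have h1 := key _ hw
      have h2 : (if Expressed Q i then 1 / (t'.size : ℝ) else 0) ≤ 2 * pB t i Q := by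
        unfold pB
        split_ifs
        · rw [mul_one_div]; exact hB1
        · norm_num
      linarith
    · rw [if_pos hvP]
      have hsz2 := psi_le_size i t'
      have hE : (if Expressed t'.leaves i then (1 : ℝ) else 0) = if Expressed Q i then 1 else 0 := by
        rw [hL', hvP, del_at]
        simp only [expressed_noI_append h.no]
      rw [hE] at hsz2
      have h2 : (2 : ℝ) / t'.size ≤ 4 / t.size := by
        rw [div_le_div_iff₀ hT'0 hT0]; linarith
      linarith
    · obtain ⟨Q', hD, hQ⟩ := del_after (Q := Q) v hvP h.no
      rw [← hL'] at hD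
      rw [psi_dec hD, if_neg hvP.ne']
      have hw := wt_del t v hv t' hd P.length hPT hvP.ne'
      rw [if_neg (by omega)] at hw
      have h1 := key _ hw
      have h2 : (if Expressed Q' i then 1 / (t'.size : ℝ) else 0) ≤ 2 * pB t i Q +
          if v = P.length + 1 + fi Q i then 2 / (t.size : ℝ) else 0 := by
        by_cases hq : Expressed Q' i
        · rw [if_pos hq]
          rcases hQ hq with hq2 | hq2
          · unfold pB
            rw [if_pos hq2, mul_one_div]
            linarith
          · rw [if_pos hq2]
            linarith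
        · rw [if_neg hq]
          positivity
      linarith

theorem psi_sub_le (h : Dec t.leaves i P Q) (v : ℕ) (x : Lit n) :
    psi i (some (t.sub v x)) ≤ (pA t P + pB t i Q + pC t) +
      (if lf t v = some P.length then (if Expressed Q i then 1 else 0) + 4 / n + 2 / (t.size : ℝ)
        else 0) +
      (if x = (i, true) ∧ ∃ m ≤ P.length, lf t v = some m then 1 else 0) +
      (if x = (i, true) then 1 / (t.size : ℝ) else 0) +
      (if lf t v = some (P.length + 1 + fi Q i) then 1 / (t.size : ℝ) else 0) := by
  classical
  have hn := npos i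
  have hT : (1 : ℝ) ≤ t.size := by exact_mod_cast t.size_pos
  have hn0 : (0 : ℝ) < n := by linarith
  have hT0 : (0 : ℝ) < t.size := by linarith
  have hA : 0 ≤ pA t P := by unfold pA; positivity
  have hB : 0 ≤ pB t i Q := by unfold pB; split_ifs <;> positivity
  have hC : 0 ≤ pC t := by unfold pC; positivity
  have hI : (0 : ℝ) ≤ if Expressed Q i then 1 else 0 := by split_ifs <;> norm_num
  have hs1 : (0 : ℝ) ≤ if lf t v = some P.length then
      (if Expressed Q i then 1 else 0) + 4 / n + 2 / (t.size : ℝ) else 0 := by
    split_ifs <;> positivity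
  have hs2 : (0 : ℝ) ≤ if x = (i, true) ∧ ∃ m ≤ P.length, lf t v = some m then 1 else 0 := by
    split_ifs <;> norm_num
  have hs3 : (0 : ℝ) ≤ if x = (i, true) then 1 / (t.size : ℝ) else 0 := by
    split_ifs <;> positivity
  have hs4 : (0 : ℝ) ≤ if lf t v = some (P.length + 1 + fi Q i) then 1 / (t.size : ℝ) else 0 := by
    split_ifs <;> positivity
  cases hl : lf t v with
  | none =>
    rw [sub_none t v x hl, psi_dec h]
    simp only [hl] at hs1 hs2 hs4
    have : (wt t P.length : ℝ) / (n * t.size) + (if Expressed Q i then 1 / (t.size : ℝ) else 0) +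
      1 / (t.size : ℝ) ^ 2 = pA t P + pB t i Q + pC t := rfl
    rw [this]
    linarith
  | some m =>
    rw [hl] at hs1 hs2 hs4
    have hL := sub_leaves t v x m hl
    rw [h.eq] at hL
    have hsz := size_sub t v x
    have key : ∀ k : ℕ, k ≤ P.length →
        (wt (t.sub v x) k : ℝ) / (n * t.size) ≤ pA t P := by
      intro k hk
      have h1 : wt (t.sub v x) k ≤ wt t P.length := by
        rw [wt_sub]; exact wt_mono _ _ _ hk
      unfold pA
      gcongr
    rcases lt_trichotomy m P.length with hm | hm | hm
    · rcases set_before (Q := Q) m hm x h.no with ⟨hx, hE⟩ | ⟨hx, P', Q', hD, hPl, hQ⟩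
      · rw [← hL] at hE
        rw [psi_exp hE]
        have : (if x = (i, true) ∧ ∃ m_1 ≤ P.length, some m = some m_1 then (1 : ℝ) else 0) = 1 :=
          if_pos ⟨hx, m, hm.le, rfl⟩
        linarith
      · rw [← hL] at hD
        rw [psi_dec hD, hsz]
        have h1 := key _ hPl
        have h2 : (if Expressed Q' i then 1 / (t.size : ℝ) else 0) ≤ pB t i Q := by
          unfold pB
          by_cases hq : Expressed Q' i
          · rw [if_pos hq, if_pos (hQ hq)]
          · rw [if_neg hq]; exact hB
        have h3 : 1 / (t.size : ℝ) ^ 2 = pC t := rfl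
        linarith
    · subst hm
      rw [set_at] at hL
      have hsz2 := psi_le_size i (t.sub v x)
      rw [hsz] at hsz2
      by_cases hx : x = (i, true)
      · have hE : Expressed (t.sub v x).leaves i := by
          rw [hL, expressed_noI_append h.no, hx]
          exact expressed_cons_true _ _
        rw [psi_exp hE]
        have : (if x = (i, true) ∧ ∃ m_1 ≤ P.length, some P.length = some m_1 then (1 : ℝ) else 0)
          = 1 := if_pos ⟨hx, P.length, le_rfl, rfl⟩
        linarith
      · have hE : (if Expressed (t.sub v x).leaves i then (1 : ℝ) else 0) ≤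
            if Expressed Q i then 1 else 0 := by
          rw [hL]
          by_cases hxi : x.1 = i
          · have hx2 : x = (i, false) := by
              obtain ⟨j, b⟩ := x
              simp only at hxi
              subst hxi
              cases b
              · rfl
              · exact absurd rfl hx
            rw [hx2, if_neg]
            · exact hI
            · rw [expressed_noI_append h.no]
              exact not_expressed_cons_false _ _
          · simp only [expressed_noI_append h.no, expressed_cons_ne x Q i hxi]
            exact le_rfl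
        rw [if_pos rfl] at hs1 ⊢
        linarith
    · obtain ⟨Q', hD, hQ⟩ := set_after (Q := Q) m hm x h.no
      rw [← hL] at hD
      rw [psi_dec hD, hsz]
      have h1 := key _ le_rfl
      have h3 : 1 / (t.size : ℝ) ^ 2 = pC t := rfl
      have h2 : (if Expressed Q' i then 1 / (t.size : ℝ) else 0) ≤ pB t i Q +
          (if x = (i, true) then 1 / (t.size : ℝ) else 0) +
          (if some m = some (P.length + 1 + fi Q i) then 1 / (t.size : ℝ) else 0) := by
        by_cases hq : Expressed Q' i
        · rw [if_pos hq]
          by_cases hx : x = (i, true)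
          · rw [if_pos hx] at hs3 ⊢
            linarith
          · rcases hQ hx hq with hq2 | hq2
            · unfold pB
              rw [if_pos hq2]
              linarith
            · have : (if some m = some (P.length + 1 + fi Q i) then 1 / (t.size : ℝ) else 0) =
                1 / (t.size : ℝ) := if_pos (by rw [hq2])
              linarith
        · rw [if_neg hq]
          positivity
      linarith

end neg

end Q231.GPS
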