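import Pool.Agent.Q231.GPS.Defs

namespace Q231.GPS

open Q231.Smo

variable {n : ℕ}

theorem nodes_eq (t : Tree n) : t.nodes + 1 = 2 * t.size := by
  induction t with
  | leaf x => rfl
  | node l r hl hr => simp only [Tree.nodes, Tree.size]; omega

/-- the index at which the new leaf of `ins v x b` appears -/
def pos : Tree n → ℕ → Bool → ℕ
  | t, 0, true => t.size
  | _, 0, false => 0
  | .leaf _, _ + 1, _ => 0
  | .node l r, v + 1, b => if v < l.nodes then pos l v b else l.size + pos r (v - l.nodes) b

theorem pos_le (t : Tree n) (v : ℕ) (b : Bool) : pos t v b ≤ t.size := by
  induction t generalizing v with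
  | leaf x =>
    cases v with
    | zero => cases b <;> simp [pos]
    | succ v => simp [pos]
  | node l r hl hr =>
    cases v with
    | zero => cases b <;> simp [pos]
    | succ v =>
      simp only [pos, Tree.size]
      split_ifs
      · exact (hl v).trans (by omega)
      · have := hr (v - l.nodes); omega

theorem ins_leaves (t : Tree n) (v : ℕ) (hv : v < t.nodes) (x : Lit n) (b : Bool) :
    (t.ins v x b).leaves = t.leaves.take (pos t v b) ++ x :: t.leaves.drop (pos t v b) := by
  induction t generalizing v with
  | leaf y =>
    have : v = 0 := by simp [Tree.nodes] at hv; omega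
    subst this
    cases b <;> simp [Tree.ins, Tree.leaves, pos, Tree.size]
  | node l r hl hr =>
    cases v with
    | zero =>
      cases b
      · simp [Tree.ins, Tree.leaves, pos]
      · have e1 : pos (Smo.Tree.node l r) 0 true = (Smo.Tree.node l r).leaves.length := by
          rw [← Tree.size_eq]; rfl
        rw [e1, List.take_length, List.drop_length]
        rfl
    | succ v =>
      by_cases h : v < l.nodes
      · have hp := pos_le l v b
        rw [l.size_eq] at hp
        simp only [Tree.ins, pos, h, if_true, Tree.leaves, hl v h]
        rw [List.take_append_of_le_length hp, List.drop_append_of_le_length hp]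
        simp
      · have h' : v - l.nodes < r.nodes := by simp [Tree.nodes] at hv; omega
        simp only [Tree.ins, pos, h, if_false, Tree.leaves, hr _ h']
        rw [l.size_eq, List.take_length_add_append, List.drop_length_add_append]
        simp

/-- number of pairs (node, side) for which the new leaf appears at index `≤ j` -/
def wt : Tree n → ℕ → ℕ
  | .leaf _, _ => 1
  | .node l r, j => if j < l.size then 1 + wt l j else 1 + 2 * l.nodes + wt r (j - l.size)

theorem wt_node (l r : Tree n) (j : ℕ) : wt (Smo.Tree.node l r) j =
    if j < l.size then 1 + wt l j else 1 + 2 * l.nodes + wt r (j - l.size) := rfl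

theorem wt_leaf (x : Lit n) (j : ℕ) : wt (Smo.Tree.leaf x) j = 1 := rfl

theorem wt_pos (t : Tree n) (j : ℕ) : 1 ≤ wt t j := by
  cases t with
  | leaf x => simp [wt]
  | node l r => simp only [wt]; split_ifs <;> omega

theorem wt_le (t : Tree n) (j : ℕ) : wt t j + 1 ≤ 2 * t.nodes := by
  induction t generalizing j with
  | leaf x => simp [wt, Tree.nodes]
  | node l r hl hr =>
    simp only [wt, Tree.nodes]
    split_ifs
    · have := hl j; omega
    · have := hr (j - l.size); omega

theorem wt_ge (t : Tree n) (j : ℕ) (hj : j < t.size) : 2 * j + 1 ≤ wt t j := by
  induction t generalizing j with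
  | leaf x => simp [Tree.size] at hj; simp [wt, hj]
  | node l r hl hr =>
    simp only [wt]
    simp only [Tree.size] at hj
    split_ifs with h
    · have := hl j h; omega
    · have := hr (j - l.size) (by omega)
      have := nodes_eq l
      omega

theorem wt_mono (t : Tree n) (j k : ℕ) (hjk : j ≤ k) : wt t j ≤ wt t k := by
  induction t generalizing j k with
  | leaf x => simp [wt]
  | node l r hl hr =>
    simp only [wt]
    split_ifs with h1 h2 h2
    · have := hl j k hjk; omega
    · have := wt_le l j; omega
    · omega
    · have := hr (j - l.size) (k - l.size) (by omega); omega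

/-- the number of (node, side) pairs as a sum -/
def cnt (t : Tree n) (j : ℕ) : ℕ :=
  ∑ v ∈ Finset.range t.nodes, ((if pos t v true ≤ j then 1 else 0) + if pos t v false ≤ j then 1 else 0)

theorem cnt_eq (t : Tree n) (j : ℕ) (hj : j < t.size) : cnt t j = wt t j := by
  induction t generalizing j with
  | leaf x =>
    simp [Tree.size] at hj
    subst hj
    simp [cnt, Tree.nodes, pos, wt, Tree.size]
  | node l r hl hr =>
    have hN : (Smo.Tree.node l r).nodes = (l.nodes + r.nodes) + 1 := by simp only [Tree.nodes]; omega
    unfold cnt
    rw [hN, Finset.sum_range_succ', Finset.sum_range_add]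
    simp only [Tree.size] at hj
    have e0 : (if pos (Smo.Tree.node l r) 0 true ≤ j then 1 else 0) +
        (if pos (Smo.Tree.node l r) 0 false ≤ j then 1 else 0) = 1 := by
      have a1 : pos (Smo.Tree.node l r) 0 true = l.size + r.size := rfl
      have a2 : pos (Smo.Tree.node l r) 0 false = 0 := rfl
      rw [if_neg (by rw [a1]; omega), if_pos (by rw [a2]; omega)]
    have e1 : ∑ v ∈ Finset.range l.nodes, ((if pos (Smo.Tree.node l r) (v + 1) true ≤ j then 1 else 0) +
        if pos (Smo.Tree.node l r) (v + 1) false ≤ j then 1 else 0) =
        ∑ v ∈ Finset.range l.nodes, ((if pos l v true ≤ j then 1 else 0) +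
          if pos l v false ≤ j then 1 else 0) := by
      apply Finset.sum_congr rfl
      intro v hv
      rw [Finset.mem_range] at hv
      simp only [pos, hv, if_true]
    have e2 : ∑ v ∈ Finset.range r.nodes,
        ((if pos (Smo.Tree.node l r) (l.nodes + v + 1) true ≤ j then 1 else 0) +
        if pos (Smo.Tree.node l r) (l.nodes + v + 1) false ≤ j then 1 else 0) =
        ∑ v ∈ Finset.range r.nodes, ((if l.size + pos r v true ≤ j then 1 else 0) +
          if l.size + pos r v false ≤ j then 1 else 0) := by
      apply Finset.sum_congr rfl
      intro v hv
      simp [pos]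
    rw [e0, e1, e2]
    by_cases h : j < l.size
    · have h1 := hl j h
      unfold cnt at h1
      rw [h1]
      have h2 : ∑ v ∈ Finset.range r.nodes, ((if l.size + pos r v true ≤ j then 1 else 0) +
          if l.size + pos r v false ≤ j then 1 else 0) = 0 := by
        apply Finset.sum_eq_zero
        intro v _
        rw [if_neg (by omega), if_neg (by omega), Nat.add_zero]
      rw [h2]
      simp only [wt, h, if_true]; omega
    · have h1 : ∑ v ∈ Finset.range l.nodes, ((if pos l v true ≤ j then 1 else 0) +
          if pos l v false ≤ j then 1 else 0) = ∑ v ∈ Finset.range l.nodes, 2 := by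
        apply Finset.sum_congr rfl
        intro v _
        have a1 := pos_le l v true
        have a2 := pos_le l v false
        rw [if_pos (by omega), if_pos (by omega)]
      have h2 : ∑ v ∈ Finset.range r.nodes, ((if l.size + pos r v true ≤ j then 1 else 0) +
          if l.size + pos r v false ≤ j then 1 else 0) = cnt r (j - l.size) := by
        unfold cnt
        apply Finset.sum_congr rfl
        intro v _
        congr 1
        · by_cases hh : l.size + pos r v true ≤ j
          · rw [if_pos hh, if_pos (by omega)]
          · rw [if_neg hh, if_neg (by omega)]
        · by_cases hh : l.size + pos r v false ≤ j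
          · rw [if_pos hh, if_pos (by omega)]
          · rw [if_neg hh, if_neg (by omega)]
      rw [h1, h2, hr _ (by omega)]
      simp only [wt, h, if_false, Finset.sum_const, Finset.card_range, smul_eq_mul]; omega

theorem size_ins (t : Tree n) (v : ℕ) (hv : v < t.nodes) (x : Lit n) (b : Bool) :
    (t.ins v x b).size = t.size + 1 := ins_size t v hv x b

theorem nodes_ins (t : Tree n) (v : ℕ) (hv : v < t.nodes) (x : Lit n) (b : Bool) :
    (t.ins v x b).nodes = t.nodes + 2 := by
  have h1 := nodes_eq (t.ins v x b)
  have h2 := nodes_eq t
  have h3 := size_ins t v hv x b
  omega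

theorem wt_ins (t : Tree n) (v : ℕ) (hv : v < t.nodes) (x : Lit n) (b : Bool) (j : ℕ)
    (hj : j < t.size) :
    wt (t.ins v x b) (if pos t v b ≤ j then j + 1 else j) ≤ wt t j + 4 := by
  induction t generalizing v j with
  | leaf y =>
    have : v = 0 := by simp [Tree.nodes] at hv; omega
    subst this
    simp [Tree.size] at hj
    subst hj
    cases b <;> simp [Tree.ins, pos, wt, Tree.size, Tree.nodes]
  | node l r hl hr =>
    cases v with
    | zero =>
      cases b
      · have e1 : pos (Smo.Tree.node l r) 0 false = 0 := rfl
        have e2 : (Smo.Tree.node l r).ins 0 x false =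
          Smo.Tree.node (Smo.Tree.leaf x) (Smo.Tree.node l r) := rfl
        rw [e1, e2, if_pos (Nat.zero_le _), wt_node (Smo.Tree.leaf x)]
        have e3 : (Smo.Tree.leaf x).size = 1 := rfl
        have e4 : (Smo.Tree.leaf x).nodes = 1 := rfl
        rw [e3, e4, if_neg (by omega), Nat.add_sub_cancel]
        omega
      · have e1 : pos (Smo.Tree.node l r) 0 true = (Smo.Tree.node l r).size := rfl
        have e2 : (Smo.Tree.node l r).ins 0 x true =
          Smo.Tree.node (Smo.Tree.node l r) (Smo.Tree.leaf x) := rfl
        rw [e1, e2, if_neg (by omega), wt_node (Smo.Tree.node l r) (Smo.Tree.leaf x), if_pos hj]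
        omega
    | succ v =>
      have hj' := hj
      simp only [Tree.size] at hj'
      by_cases h : v < l.nodes
      · simp only [Tree.ins, pos, h, if_true, wt]
        rw [size_ins l v h, nodes_ins l v h]
        have hp := pos_le l v b
        by_cases hjl : j < l.size
        · have := hl v h j hjl
          rw [if_pos hjl]
          split_ifs at this ⊢ <;> omega
        · rw [if_neg hjl, if_pos (show pos l v b ≤ j by omega), if_neg (by omega)]
          have : j + 1 - (l.size + 1) = j - l.size := by omega
          rw [this]; omega
      · have h' : v - l.nodes < r.nodes := by simp [Tree.nodes] at hv; omega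
        simp only [Tree.ins, pos, h, if_false, wt]
        by_cases hjl : j < l.size
        · rw [if_neg (show ¬ l.size + pos r (v - l.nodes) b ≤ j by omega), if_pos hjl, if_pos hjl]
          omega
        · have := hr (v - l.nodes) h' (j - l.size) (by omega)
          rw [if_neg hjl]
          by_cases hp : l.size + pos r (v - l.nodes) b ≤ j
          · rw [if_pos hp, if_neg (by omega)]
            rw [if_pos (by omega)] at this
            have e : j + 1 - l.size = j - l.size + 1 := by omega
            rw [e]; omega
          · rw [if_neg hp, if_neg hjl]
            rw [if_neg (by omega)] at this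
            omega

theorem size_del (t : Tree n) (v : ℕ) (hv : v < t.size) (t' : Tree n) (h : t.del v = some t') :
    t'.size + 1 = t.size := by
  have := del_size t v hv
  rw [h] at this
  exact this

theorem del_none (t : Tree n) (v : ℕ) (hv : v < t.size) (h : t.del v = none) : t.size = 1 := by
  have := del_size t v hv
  rw [h] at this
  simp only [size] at this
  omega

theorem wt_del (t : Tree n) (v : ℕ) (hv : v < t.size) (t' : Tree n) (h : t.del v = some t')
    (j : ℕ) (hj : j < t.size) (hvj : v ≠ j) :
    wt t' (if v < j then j - 1 else j) ≤ wt t j := by
  induction t generalizing v j t' with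
  | leaf y => simp [Tree.del] at h
  | node l r hl hr =>
    simp only [Tree.size] at hj hv
    by_cases hvl : v < l.size
    · simp only [Tree.del, hvl, if_true] at h
      cases hd : l.del v with
      | none =>
        rw [hd] at h
        simp only [Option.some.injEq] at h
        subst h
        have h1 := del_none l v hvl hd
        rw [if_pos (by omega)]
        simp only [wt]
        rw [if_neg (by omega), h1]
        omega
      | some l' =>
        rw [hd] at h
        simp only [Option.some.injEq] at h
        subst h
        have h1 := size_del l v hvl l' hd
        have n1 := nodes_eq l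
        have n2 := nodes_eq l'
        by_cases hjl : j < l.size
        · have ih := hl v hvl l' hd j hjl hvj
          simp only [wt]
          rw [if_pos hjl]
          rw [if_pos (by split_ifs <;> omega)]
          omega
        · rw [if_pos (by omega)]
          simp only [wt]
          rw [if_neg hjl, if_neg (by omega)]
          have e : j - 1 - l'.size = j - l.size := by omega
          rw [e]; omega
    · simp only [Tree.del, hvl, if_false] at h
      have hvr : v - l.size < r.size := by omega
      cases hd : r.del (v - l.size) with
      | none =>
        rw [hd] at h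
        simp only [Option.some.injEq] at h
        subst h
        have h1 := del_none r _ hvr hd
        rw [if_neg (by omega)]
        simp only [wt]
        rw [if_pos (by omega)]
        omega
      | some r' =>
        rw [hd] at h
        simp only [Option.some.injEq] at h
        subst h
        by_cases hjl : j < l.size
        · rw [if_neg (by omega)]
          simp only [wt]
          rw [if_pos hjl, if_pos hjl]
        · have ih := hr (v - l.size) hvr r' hd (j - l.size) (by omega) (by omega)
          by_cases hvj2 : v < j
          · rw [if_pos (by omega)] at ih
            rw [if_pos hvj2]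
            simp only [wt]
            rw [if_neg (by omega), if_neg hjl]
            have e : j - l.size - 1 = j - 1 - l.size := by omega
            rw [e] at ih
            omega
          · rw [if_neg (by omega)] at ih
            rw [if_neg hvj2]
            simp only [wt]
            rw [if_neg hjl, if_neg hjl]
            omega

theorem size_sub (t : Tree n) (v : ℕ) (x : Lit n) : (t.sub v x).size = t.size := t.sub_size v x

theorem nodes_sub (t : Tree n) (v : ℕ) (x : Lit n) : (t.sub v x).nodes = t.nodes := by
  have h1 := nodes_eq (t.sub v x)
  have h2 := nodes_eq t
  have h3 := size_sub t v x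
  omega

theorem wt_sub (t : Tree n) (v : ℕ) (x : Lit n) (j : ℕ) : wt (t.sub v x) j = wt t j := by
  induction t generalizing v j with
  | leaf y => rfl
  | node l r hl hr =>
    cases v with
    | zero => rfl
    | succ v =>
      by_cases h : v < l.nodes
      · simp only [Tree.sub, h, if_true, wt, size_sub, nodes_sub, hl]
      · simp only [Tree.sub, h, if_false, wt, size_sub, nodes_sub, hr]

/-- index of the leaf which is node number `v` (`none` for inner nodes) -/
def lf : Tree n → ℕ → Option ℕ
  | .leaf _, _ => some 0
  | .node _ _, 0 => none
  | .node l r, v + 1 => if v < l.nodes then lf l v else (lf r (v - l.nodes)).map (fun m => l.size + m)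

theorem lf_lt (t : Tree n) (v m : ℕ) (h : lf t v = some m) : m < t.size := by
  induction t generalizing v m with
  | leaf y => simp [lf] at h; simp [Tree.size, ← h]
  | node l r hl hr =>
    cases v with
    | zero => simp [lf] at h
    | succ v =>
      simp only [lf] at h
      simp only [Tree.size]
      split_ifs at h with h1
      · have := hl v m h; omega
      · rw [Option.map_eq_some_iff] at h
        obtain ⟨k, hk, hkm⟩ := h
        have := hr _ k hk; omega

theorem lf_inj (t : Tree n) (v w m : ℕ) (hv : v < t.nodes) (hw : w < t.nodes)
    (h : lf t v = some m) (h' : lf t w = some m) : v = w := by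
  induction t generalizing v w m with
  | leaf y => simp only [Tree.nodes] at hv hw; omega
  | node l r hl hr =>
    simp only [Tree.nodes] at hv hw
    cases v with
    | zero => simp [lf] at h
    | succ v =>
      cases w with
      | zero => simp [lf] at h'
      | succ w =>
        simp only [lf] at h h'
        split_ifs at h h' with h1 h2 h3
        · rw [hl v w m h1 h2 h h']
        · rw [Option.map_eq_some_iff] at h'
          obtain ⟨k, hk, hkm⟩ := h'
          have := lf_lt l v m h; omega
        · rw [Option.map_eq_some_iff] at h
          obtain ⟨k, hk, hkm⟩ := h
          have := lf_lt l w m h'; omega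
        · rw [Option.map_eq_some_iff] at h h'
          obtain ⟨k, hk, hkm⟩ := h
          obtain ⟨k', hk', hkm'⟩ := h'
          have : k = k' := by omega
          subst this
          have := hr _ _ k (by omega) (by omega) hk hk'
          omega

theorem sub_none (t : Tree n) (v : ℕ) (x : Lit n) (h : lf t v = none) : t.sub v x = t := by
  induction t generalizing v with
  | leaf y => simp [lf] at h
  | node l r hl hr =>
    cases v with
    | zero => rfl
    | succ v =>
      simp only [lf] at h
      simp only [Tree.sub]
      split_ifs at h ⊢ with h1
      · rw [hl v h]
      · rw [Option.map_eq_none_iff] at h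
        rw [hr _ h]

theorem sub_leaves (t : Tree n) (v : ℕ) (x : Lit n) (m : ℕ) (h : lf t v = some m) :
    (t.sub v x).leaves = t.leaves.set m x := by
  induction t generalizing v m with
  | leaf y => simp [lf] at h; simp [Tree.sub, Tree.leaves, ← h]
  | node l r hl hr =>
    cases v with
    | zero => simp [lf] at h
    | succ v =>
      simp only [lf] at h
      simp only [Tree.sub]
      split_ifs at h ⊢ with h1
      · have hm := lf_lt l v m h
        simp only [Tree.leaves]
        rw [hl v m h, List.set_append_left _ _ (by rw [← l.size_eq]; exact hm)]
      · rw [Option.map_eq_some_iff] at h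
        obtain ⟨k, hk, hkm⟩ := h
        simp only [Tree.leaves]
        rw [hr _ k hk, List.set_append_right _ _ (by rw [← l.size_eq]; omega), ← l.size_eq]
        congr 2
        omega

end Q231.GPS
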