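import Pool.Agent.Q231.GPS.Psi

namespace Q231.GPS

open Q231.Smo
open scoped ENNReal

variable {n : ℕ}

/-! ### sums of indicators -/

theorem sum_ind1 (t : Tree n) (i : Fin n) (r : ℕ) (hr : r < t.size) :
    ∑ c : Fin t.nodes × Lit n × Bool,
      (if c.2.1 = (i, true) ∧ pos t c.1 c.2.2 ≤ r then (1 : ℝ) else 0) = wt t r := by
  classical
  rw [← cnt_eq t r hr, cnt, Fintype.sum_prod_type]
  simp only [Fintype.sum_prod_type (α₁ := Lit n), ite_and]
  rw [Finset.sum_range]
  push_cast
  apply Finset.sum_congr rfl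
  intro v _
  simp only [Fintype.sum_bool]
  rw [Finset.sum_eq_single (i, true)]
  · simp
  · intro b _ hb; simp [hb]
  · intro h; exact absurd (Finset.mem_univ _) h

theorem sum_lit (i : Fin n) (K : ℝ) : ∑ x : Lit n, (if x = (i, true) then K else 0) = K := by
  rw [Finset.sum_ite_eq', if_pos (Finset.mem_univ _)]

theorem sum_ind2 (t : Tree n) (i : Fin n) (K : ℝ) :
    ∑ c : Fin t.nodes × Lit n × Bool, (if c.2.1 = (i, true) then K else 0) = 2 * t.nodes * K := by
  rw [Fintype.sum_prod_type]
  have h : ∀ v : Fin t.nodes, ∑ y : Lit n × Bool,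
      (if ((v, y) : Fin t.nodes × Lit n × Bool).2.1 = (i, true) then K else 0) = 2 * K := by
    intro v
    rw [Fintype.sum_prod_type]
    have h2 : ∀ x : Lit n, ∑ b : Bool,
        (if ((v, (x, b)) : Fin t.nodes × Lit n × Bool).2.1 = (i, true) then K else 0) =
        2 * (if x = (i, true) then K else 0) := by
      intro x
      rw [Fintype.sum_bool]
      ring
    rw [Finset.sum_congr rfl fun x _ => h2 x, ← Finset.mul_sum, sum_lit]
  rw [Finset.sum_congr rfl fun v _ => h v, Finset.sum_const, Finset.card_univ, Fintype.card_fin,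
    nsmul_eq_mul]
  ring

theorem sum_fin_eq_le (m a : ℕ) (K : ℝ) (hK : 0 ≤ K) :
    ∑ v : Fin m, (if (v : ℕ) = a then K else 0) ≤ K := by
  classical
  rw [← Finset.sum_filter, Finset.sum_const, nsmul_eq_mul]
  have : (Finset.univ.filter (fun v : Fin m => (v : ℕ) = a)).card ≤ 1 := by
    rw [Finset.card_le_one]
    intro x hx y hy
    simp only [Finset.mem_filter, Finset.mem_univ, true_and] at hx hy
    exact Fin.ext (by omega)
  have h1 : ((Finset.univ.filter (fun v : Fin m => (v : ℕ) = a)).card : ℝ) ≤ 1 := by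
    exact_mod_cast this
  nlinarith

theorem card_lf_le (t : Tree n) (a : ℕ) :
    (Finset.univ.filter (fun v : Fin t.nodes => lf t v = some a)).card ≤ 1 := by
  classical
  rw [Finset.card_le_one]
  intro x hx y hy
  simp only [Finset.mem_filter, Finset.mem_univ, true_and] at hx hy
  exact Fin.ext (lf_inj t x y a x.2 y.2 hx hy)

theorem sum_lf_le (t : Tree n) (a : ℕ) (K : ℝ) (hK : 0 ≤ K) :
    ∑ c : Fin t.nodes × Lit n, (if lf t c.1 = some a then K else 0) ≤ 2 * n * K := by
  classical
  rw [Fintype.sum_prod_type]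
  have h0 : ∀ v : Fin t.nodes, ∑ x : Lit n,
      (if lf t ((v, x) : Fin t.nodes × Lit n).1 = some a then K else 0) =
      (n : ℝ) * 2 * (if lf t v = some a then K else 0) := by
    intro v
    show ∑ _x : Lit n, (if lf t v = some a then K else 0) = _
    rw [Finset.sum_const, Finset.card_univ, Fintype.card_prod, Fintype.card_fin,
      Fintype.card_bool, nsmul_eq_mul]
    push_cast
    rfl
  rw [Finset.sum_congr rfl fun v _ => h0 v]
  rw [← Finset.mul_sum, ← Finset.sum_filter, Finset.sum_const, nsmul_eq_mul]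
  have h1 : ((Finset.univ.filter (fun v : Fin t.nodes => lf t v = some a)).card : ℝ) ≤ 1 := by
    exact_mod_cast card_lf_le t a
  have h2 : (0 : ℝ) ≤ n := by positivity
  calc (n : ℝ) * 2 * ((Finset.univ.filter (fun v : Fin t.nodes => lf t v = some a)).card * K)
      ≤ n * 2 * (1 * K) := by gcongr
    _ = 2 * n * K := by ring

theorem card_lf_range_le (t : Tree n) (r : ℕ) :
    (Finset.univ.filter (fun v : Fin t.nodes => ∃ m ≤ r, lf t v = some m)).card ≤ r + 1 := by
  classical
  have h : (Finset.univ.filter (fun v : Fin t.nodes => ∃ m ≤ r, lf t v = some m)) ⊆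
      (Finset.range (r + 1)).biUnion
        (fun a => Finset.univ.filter (fun v : Fin t.nodes => lf t v = some a)) := by
    intro v hv
    simp only [Finset.mem_filter, Finset.mem_univ, true_and] at hv
    obtain ⟨m, hm, hv⟩ := hv
    simp only [Finset.mem_biUnion, Finset.mem_range, Finset.mem_filter, Finset.mem_univ, true_and]
    exact ⟨m, by omega, hv⟩
  refine (Finset.card_le_card h).trans ?_
  refine Finset.card_biUnion_le.trans ?_
  refine (Finset.sum_le_sum fun a _ => card_lf_le t a).trans ?_
  simp

theorem sum_lf_range_le (t : Tree n) (i : Fin n) (r : ℕ)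
    [∀ v, Decidable (∃ m ≤ r, lf t v = some m)] :
    ∑ c : Fin t.nodes × Lit n, (if c.2 = (i, true) ∧ ∃ m ≤ r, lf t c.1 = some m then (1 : ℝ) else 0)
      ≤ r + 1 := by
  rw [Fintype.sum_prod_type]
  have : ∀ v : Fin t.nodes, ∑ x : Lit n, (if ((v, x) : Fin t.nodes × Lit n).2 = (i, true) ∧
      ∃ m ≤ r, lf t ((v, x) : Fin t.nodes × Lit n).1 = some m then (1 : ℝ) else 0) =
      if ∃ m ≤ r, lf t v = some m then (1 : ℝ) else 0 := by
    intro v
    by_cases hm : ∃ m ≤ r, lf t v = some m
    · rw [if_pos hm]
      refine (Finset.sum_congr rfl fun x _ => ?_).trans (sum_lit i 1)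
      by_cases hx : x = (i, true)
      · rw [if_pos ⟨hx, hm⟩, if_pos hx]
      · rw [if_neg (fun h => hx h.1), if_neg hx]
    · rw [if_neg hm]
      apply Finset.sum_eq_zero
      intro x _
      rw [if_neg (fun h => hm h.2)]
  rw [Finset.sum_congr rfl fun v _ => this v, ← Finset.sum_filter, Finset.sum_const,
    nsmul_eq_mul, mul_one]
  have h' : (Finset.univ.filter (fun v : Fin t.nodes => ∃ m ≤ r, lf t v = some m)).card ≤ r + 1 := by
    have h := card_lf_range_le t r
    convert h
  calc ((Finset.univ.filter (fun v : Fin t.nodes => ∃ m ≤ r, lf t v = some m)).card : ℝ)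
      ≤ ((r + 1 : ℕ) : ℝ) := by exact_mod_cast h'
    _ = r + 1 := by push_cast; ring

theorem sum_sub_ind (t : Tree n) (i : Fin n) (K : ℝ) :
    ∑ c : Fin t.nodes × Lit n, (if c.2 = (i, true) then K else 0) = t.nodes * K := by
  rw [Fintype.sum_prod_type]
  have : ∀ v : Fin t.nodes, ∑ x : Lit n,
      (if ((v, x) : Fin t.nodes × Lit n).2 = (i, true) then K else 0) = K := fun v => sum_lit i K
  rw [Finset.sum_congr rfl fun v _ => this v, Finset.sum_const, Finset.card_univ,
    Fintype.card_fin, nsmul_eq_mul]

variable [NeZero n]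

/-- expectation of the potential over one application of HVL-Prime, three parts -/
theorem Ex_hvl_parts (t : Tree n) (φ : Ind n → ℝ≥0∞) (R1 R2 R3 : ℝ) (h1' : 0 ≤ R1) (h2' : 0 ≤ R2)
    (h3' : 0 ≤ R3)
    (h1 : Ex (PMF.uniformOfFintype (Fin t.nodes × Lit n × Bool))
      (fun c => φ (some (t.ins c.1 c.2.1 c.2.2))) ≤ ENNReal.ofReal R1)
    (h2 : Ex (PMF.uniformOfFintype (Fin t.size)) (fun v => φ (t.del v)) ≤ ENNReal.ofReal R2)
    (h3 : Ex (PMF.uniformOfFintype (Fin t.nodes × Lit n))
      (fun c => φ (some (t.sub c.1 c.2))) ≤ ENNReal.ofReal R3) :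
    Ex (hvl (some t)) φ ≤ ENNReal.ofReal ((R1 + R2 + R3) / 3) := by
  rw [hvl, Ex_bind]
  refine Ex_uniform_le _ (fun o => match o with
    | Op.INS => R1
    | Op.DEL => R2
    | Op.SUB => R3) ?_ ?_ _ ?_
  · intro o
    cases o with
    | INS => simp only; rw [Ex_map]; exact h1
    | DEL => simp only; rw [Ex_map]; exact h2
    | SUB => simp only; rw [Ex_map]; exact h3
  · intro o
    cases o <;> simp only <;> assumption
  · rw [sum_op, card_op]
    simp only
    push_cast
    linarith

theorem card_ins (t : Tree n) :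
    (Fintype.card (Fin t.nodes × Lit n × Bool) : ℝ) = 4 * n * t.nodes := by
  simp only [Fintype.card_prod, Fintype.card_fin, Fintype.card_bool]
  push_cast
  ring

theorem card_sub (t : Tree n) : (Fintype.card (Fin t.nodes × Lit n) : ℝ) = 2 * n * t.nodes := by
  simp only [Fintype.card_prod, Fintype.card_fin, Fintype.card_bool]
  push_cast
  ring

theorem nodes_ge (t : Tree n) : (t.size : ℝ) ≤ t.nodes := by
  have h1 := nodes_eq t
  have h2 := t.size_pos
  have : t.size ≤ t.nodes := by omega
  exact_mod_cast this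

theorem Ex_psi_dec {i : Fin n} {t : Tree n} {P Q : List (Lit n)} (h : Dec t.leaves i P Q) :
    Ex (hvl (some t)) (fun Y => ENNReal.ofReal (psi i Y)) ≤
      ENNReal.ofReal (20 * psi i (some t)) := by
  classical
  have hn := npos i
  have hT : (1 : ℝ) ≤ t.size := by exact_mod_cast t.size_pos
  have hN := nodes_ge t
  have hn0 : (0 : ℝ) < n := by linarith
  have hT0 : (0 : ℝ) < t.size := by linarith
  have hN0 : (0 : ℝ) < t.nodes := by linarith
  have hA : 0 ≤ pA t P := by unfold pA; positivity
  have hB : 0 ≤ pB t i Q := by unfold pB; split_ifs <;> positivity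
  have hC : 0 ≤ pC t := by unfold pC; positivity
  have hI : (0 : ℝ) ≤ if Expressed Q i then 1 else 0 := by split_ifs <;> norm_num
  have hPT : P.length < t.size := by rw [t.size_eq]; exact h.lt
  have hpsi : psi i (some t) = pA t P + pB t i Q + pC t := psi_dec h
  have hw1 : (1 : ℝ) ≤ wt t P.length := by exact_mod_cast wt_pos t P.length
  -- small facts
  have f1 : 1 / (n * (t.size : ℝ)) ≤ pA t P := by unfold pA; gcongr
  have f2 : (if Expressed Q i then (1 : ℝ) else 0) / t.size = pB t i Q := by
    unfold pB; split_ifs <;> simp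
  have f3 : 1 / (t.size : ℝ) ^ 2 = pC t := rfl
  have f4 : (wt t P.length : ℝ) / (n * t.size) = pA t P := rfl
  refine (Ex_hvl_parts t _ (7 * pA t P + pB t i Q + pC t)
    (6 * pA t P + 3 * pB t i Q + 10 * pC t) (8 * pA t P + 2 * pB t i Q + 5 * pC t)
    (by positivity) (by positivity) (by positivity) ?_ ?_ ?_).trans ?_
  · refine Ex_uniform_le _ (fun c => (5 * pA t P + pB t i Q + pC t) +
      (if c.2.1 = (i, true) ∧ pos t c.1 c.2.2 ≤ P.length then 1 else 0) +
      (if c.2.1 = (i, true) then 1 / (t.size : ℝ) else 0)) ?_ ?_ _ ?_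
    · intro c
      exact ENNReal.ofReal_le_ofReal (psi_ins_le h c.1 c.1.2 c.2.1 c.2.2)
    · intro c
      positivity
    · rw [Finset.sum_add_distrib, Finset.sum_add_distrib, sum_ind1 t i _ hPT, sum_ind2,
        Finset.sum_const, Finset.card_univ, nsmul_eq_mul, card_ins]
      have g1 : (wt t P.length : ℝ) ≤ 4 * n * t.nodes * (pA t P) := by
        unfold pA
        rw [← mul_div_assoc, le_div_iff₀ (by positivity)]
        have : (wt t P.length : ℝ) * (n * t.size) ≤ wt t P.length * (n * t.nodes) := by gcongr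
        nlinarith [mul_pos (mul_pos hn0 hN0) (lt_of_lt_of_le one_pos hw1)]
      have g2 : 2 * (t.nodes : ℝ) * (1 / t.size) ≤ 4 * n * t.nodes * pA t P := by
        have : 4 * n * t.nodes * (1 / (n * (t.size : ℝ))) ≤ 4 * n * t.nodes * pA t P := by gcongr
        have e : 4 * n * t.nodes * (1 / (n * (t.size : ℝ))) =
            2 * t.nodes * (1 / t.size) + 2 * t.nodes * (1 / t.size) := by
          field_simp; ring
        have : (0 : ℝ) ≤ 2 * t.nodes * (1 / t.size) := by positivity
        linarith
      nlinarith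
  · refine Ex_uniform_le _ (fun v : Fin t.size => (2 * pA t P + 2 * pB t i Q + 4 * pC t) +
      (if (v : ℕ) = P.length then (if Expressed Q i then 1 else 0) + 4 / n + 4 / (t.size : ℝ) else 0) +
      (if (v : ℕ) = P.length + 1 + fi Q i then 2 / (t.size : ℝ) else 0)) ?_ ?_ _ ?_
    · intro v
      exact ENNReal.ofReal_le_ofReal (psi_del_le h v v.2)
    · intro v
      positivity
    · rw [Finset.sum_add_distrib, Finset.sum_add_distrib, Finset.sum_const, Finset.card_univ,
        Fintype.card_fin, nsmul_eq_mul]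
      have g1 := sum_fin_eq_le t.size P.length
        ((if Expressed Q i then 1 else 0) + 4 / n + 4 / (t.size : ℝ)) (by positivity)
      have g2 := sum_fin_eq_le t.size (P.length + 1 + fi Q i) (2 / (t.size : ℝ)) (by positivity)
      have e1 : (if Expressed Q i then (1 : ℝ) else 0) = t.size * pB t i Q := by
        rw [← f2]; field_simp
      have e2 : (4 : ℝ) / n ≤ t.size * (4 * pA t P) := by
        have : (4 : ℝ) / n = t.size * (4 * (1 / (n * (t.size : ℝ)))) := by field_simp
        rw [this]; gcongr
      have e3 : (4 : ℝ) / t.size = t.size * (4 * pC t) := by rw [← f3]; field_simp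
      have e4 : (2 : ℝ) / t.size = t.size * (2 * pC t) := by rw [← f3]; field_simp
      rw [e1, e3] at g1
      rw [e4] at g2
      rw [e1, e3, e4]
      have : (t.size : ℝ) * (6 * pA t P + 3 * pB t i Q + 10 * pC t) =
        t.size * (2 * pA t P + 2 * pB t i Q + 4 * pC t) +
        (t.size * pB t i Q + t.size * (4 * pA t P) + t.size * (4 * pC t)) +
        t.size * (2 * pC t) := by ring
      rw [this]
      linarith
  · refine Ex_uniform_le _ (fun c => (pA t P + pB t i Q + pC t) +
      (if lf t c.1 = some P.length then (if Expressed Q i then 1 else 0) + 4 / n + 2 / (t.size : ℝ)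
        else 0) +
      (if c.2 = (i, true) ∧ ∃ m ≤ P.length, lf t c.1 = some m then 1 else 0) +
      (if c.2 = (i, true) then 1 / (t.size : ℝ) else 0) +
      (if lf t c.1 = some (P.length + 1 + fi Q i) then 1 / (t.size : ℝ) else 0)) ?_ ?_ _ ?_
    · intro c
      refine ENNReal.ofReal_le_ofReal ?_
      have := psi_sub_le h c.1 c.2
      convert this
    · intro c
      positivity
    · rw [Finset.sum_add_distrib, Finset.sum_add_distrib, Finset.sum_add_distrib,
        Finset.sum_add_distrib, sum_sub_ind, Finset.sum_const, Finset.card_univ, nsmul_eq_mul,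
        card_sub]
      have g1 := sum_lf_le t P.length
        ((if Expressed Q i then 1 else 0) + 4 / n + 2 / (t.size : ℝ)) (by positivity)
      have g2 := sum_lf_le t (P.length + 1 + fi Q i) (1 / (t.size : ℝ)) (by positivity)
      have g3 := sum_lf_range_le t i P.length
      have hw : (P.length : ℝ) + 1 ≤ wt t P.length := by
        have := wt_ge t P.length hPT
        have h2 : P.length + 1 ≤ wt t P.length := by have := wt_pos t P.length; omega
        exact_mod_cast h2
      -- everything in terms of `nodes`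
      have e1 : (if Expressed Q i then (1 : ℝ) else 0) ≤ t.nodes * pB t i Q := by
        have : (if Expressed Q i then (1 : ℝ) else 0) = t.size * pB t i Q := by
          rw [← f2]; field_simp
        rw [this]; gcongr
      have e2 : (4 : ℝ) / n ≤ t.nodes * (4 * pA t P) := by
        have : (4 : ℝ) / n = t.size * (4 * (1 / (n * (t.size : ℝ)))) := by field_simp
        rw [this]; gcongr
      have e3 : (2 : ℝ) / t.size ≤ t.nodes * (2 * pC t) := by
        have : (2 : ℝ) / t.size = t.size * (2 * pC t) := by rw [← f3]; field_simp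
        rw [this]; gcongr
      have e4 : (1 : ℝ) / t.size ≤ t.nodes * (pC t) := by
        have : (1 : ℝ) / t.size = t.size * (pC t) := by rw [← f3]; field_simp
        rw [this]; gcongr
      have e5 : (wt t P.length : ℝ) ≤ n * t.nodes * pA t P := by
        unfold pA
        rw [← mul_div_assoc, le_div_iff₀ (by positivity)]
        have : (wt t P.length : ℝ) * (n * t.size) ≤ wt t P.length * (n * t.nodes) := by gcongr
        nlinarith
      have e6 : (t.nodes : ℝ) * (1 / t.size) ≤ n * t.nodes * pA t P := by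
        have : (n : ℝ) * t.nodes * (1 / (n * (t.size : ℝ))) ≤ n * t.nodes * pA t P := by gcongr
        refine le_trans (le_of_eq ?_) this
        field_simp
      have k1 : 2 * (n : ℝ) * ((if Expressed Q i then (1 : ℝ) else 0) + 4 / n + 2 / (t.size : ℝ)) ≤
        2 * n * (t.nodes * pB t i Q + t.nodes * (4 * pA t P) + t.nodes * (2 * pC t)) := by gcongr
      have k2 : 2 * (n : ℝ) * (1 / (t.size : ℝ)) ≤ 2 * n * (t.nodes * pC t) := by gcongr
      have k3 : 0 ≤ (n : ℝ) * t.nodes * pC t := by positivity
      have k4 : 0 ≤ (n : ℝ) * t.nodes * pA t P := by positivity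
      have k5 : 0 ≤ (n : ℝ) * t.nodes * pB t i Q := by positivity
      nlinarith
  · rw [hpsi]
    apply ENNReal.ofReal_le_ofReal
    linarith

end Q231.GPS
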